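import Pool.Agent.Helper44.Chart

open MvPolynomial

universe u
noncomputable section

namespace Pool.Agent.Helper44

attribute [local instance] MvPolynomial.gradedAlgebra

section Alg

variable {k : Type u} [Field k]

/-- `τ = ab + c²`. -/
def tau (k : Type u) [Field k] : MvPolynomial (Fin 3) k := X 0 * X 1 + X 2 ^ 2

lemma tau_mem : tau k ∈ homogeneousSubmodule (Fin 3) k 2 := by
  have h := fun i => isHomogeneous_X k (i : Fin 3)
  exact ((h 0).mul (h 1)).add ((h 2).pow 2)

lemma tau_ne_zero : tau k ≠ 0 := by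
  intro h
  have := congrArg (aeval (fun i : Fin 3 => if i = 2 then (1 : k) else 0)) h
  simp [tau] at this

lemma dec_eq {σ : Type*} (φ : MvPolynomial σ k) (n : ℕ) :
    ((DirectSum.decompose (homogeneousSubmodule σ k) φ n : _) : MvPolynomial σ k) =
      homogeneousComponent n φ := decomposition.decompose'_apply φ n

lemma homComp_mul {σ : Type*} {i : ℕ} {a : MvPolynomial σ k} (ha : a ∈ homogeneousSubmodule σ k i)
    (b : MvPolynomial σ k) (j : ℕ) :
    homogeneousComponent (i + j) (a * b) = a * homogeneousComponent j b := by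
  have := DirectSum.coe_decompose_mul_add_of_left_mem (homogeneousSubmodule σ k) (j := j) ha (b := b)
  rwa [dec_eq, dec_eq] at this

lemma homComp_mul_of_lt {σ : Type*} {i n : ℕ} {a : MvPolynomial σ k}
    (ha : a ∈ homogeneousSubmodule σ k i)
    (b : MvPolynomial σ k) (h : n < i) :
    homogeneousComponent n (a * b) = 0 := by
  have := DirectSum.coe_decompose_mul_of_left_mem_of_not_le (homogeneousSubmodule σ k) (n := n) (b := b) ha (by omega)
  rwa [dec_eq] at this

variable {R : Type*} [CommRing R] (ρ0 ρ1 : MvPolynomial (Fin 3) k →+* R)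
  (hC : ∀ c, ρ0 (C c) = ρ1 (C c)) (hX : ∀ j, ρ0 (X j) = ρ0 (tau k) * ρ1 (X j))

include hC hX in
lemma scale_sum (p : MvPolynomial (Fin 3) k) :
    ρ0 (tau k) ^ p.totalDegree * ρ1 p = ρ0 (∑ i ∈ Finset.range (p.totalDegree + 1),
      tau k ^ (p.totalDegree - i) * homogeneousComponent i p) := by
  conv_lhs => rw [← sum_homogeneousComponent p]
  rw [map_sum, map_sum, Finset.mul_sum]
  refine Finset.sum_congr rfl fun i hi => ?_
  rw [map_mul, map_pow, hom_scale ρ0 ρ1 hC _ hX (homogeneousComponent_mem i p), ← mul_assoc,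
    ← pow_add, sum_homogeneousComponent]
  congr 2
  have := Finset.mem_range.mp hi
  omega

include hC hX in
lemma key_eq (hinj : Function.Injective ρ0) (p F : MvPolynomial (Fin 3) k)
    (h : ρ0 (tau k) ^ 2 * ρ1 p = ρ0 F) :
    tau k ^ p.totalDegree * F = ∑ i ∈ Finset.range (p.totalDegree + 1),
      tau k ^ (p.totalDegree - i + 2) * homogeneousComponent i p := by
  apply hinj
  have h1 := scale_sum ρ0 ρ1 hC hX p
  rw [map_mul, ← h, map_pow, mul_left_comm, h1, ← map_pow, ← map_mul, Finset.mul_sum]
  congr 1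
  refine Finset.sum_congr rfl fun i hi => ?_
  rw [pow_add]
  ring

include hC hX in
lemma key_comp (hinj : Function.Injective ρ0) (p F : MvPolynomial (Fin 3) k)
    (h : ρ0 (tau k) ^ 2 * ρ1 p = ρ0 F) (m : ℕ) :
    tau k ^ p.totalDegree * homogeneousComponent m F = ∑ i ∈ Finset.range (p.totalDegree + 1),
      if 2 * p.totalDegree + m = 2 * (p.totalDegree - i + 2) + i then
      tau k ^ (p.totalDegree - i + 2) * homogeneousComponent i p else 0 := by
  have h1 := congrArg (homogeneousComponent (2 * p.totalDegree + m))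
    (key_eq ρ0 ρ1 hC hX hinj p F h)
  have hpow : ∀ n, tau k ^ n ∈ homogeneousSubmodule (Fin 3) k (2 * n) := fun n =>
    IsHomogeneous.pow (tau_mem (k := k)) n
  rw [homComp_mul (hpow _), map_sum] at h1
  rw [h1]
  refine Finset.sum_congr rfl fun i _ => ?_
  exact homogeneousComponent_of_mem (IsHomogeneous.mul (hpow _) (homogeneousComponent_mem i p))

include hC hX in
lemma comp_high (hinj : Function.Injective ρ0) (p F : MvPolynomial (Fin 3) k)
    (h : ρ0 (tau k) ^ 2 * ρ1 p = ρ0 F) (hp : constantCoeff p = 0) (m : ℕ) (hm : 4 ≤ m) :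
    homogeneousComponent m F = 0 := by
  have h1 := key_comp ρ0 ρ1 hC hX hinj p F h m
  rw [Finset.sum_eq_zero] at h1
  · exact (mul_eq_zero.mp h1).resolve_left (pow_ne_zero _ tau_ne_zero)
  · intro i hi
    have hi' := Finset.mem_range.mp hi
    split_ifs with h2
    · have : i = 0 := by omega
      subst this
      rw [homogeneousComponent_zero]
      have : coeff 0 p = 0 := hp
      rw [this, C_0, mul_zero]
    · rfl

include hC hX in
lemma comp_three (hinj : Function.Injective ρ0) (p F : MvPolynomial (Fin 3) k)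
    (h : ρ0 (tau k) ^ 2 * ρ1 p = ρ0 F) :
    ∃ q, homogeneousComponent 3 F = tau k * q := by
  have h1 := key_comp ρ0 ρ1 hC hX hinj p F h 3
  by_cases hd : p.totalDegree = 0
  · rw [Finset.sum_eq_zero] at h1
    · refine ⟨0, ?_⟩
      rw [mul_zero]
      exact (mul_eq_zero.mp h1).resolve_left (pow_ne_zero _ tau_ne_zero)
    · intro i hi
      have hi' := Finset.mem_range.mp hi
      rw [if_neg (by omega)]
  · refine ⟨homogeneousComponent 1 p, ?_⟩
    rw [Finset.sum_eq_single 1, if_pos (by omega)] at h1
    · apply mul_left_cancel₀ (pow_ne_zero p.totalDegree (tau_ne_zero (k := k)))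
      rw [h1, ← mul_assoc, ← pow_succ]
      congr 2
      omega
    · intro i hi hne
      have hi' := Finset.mem_range.mp hi
      rw [if_neg (by omega)]
    · intro hn
      exact absurd (Finset.mem_range.mpr (by omega)) hn

end Alg

end Pool.Agent.Helper44
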