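import Pool.Agent.Helper44.AlgComp

open MvPolynomial

universe u
noncomputable section

namespace Pool.Agent.Helper44

attribute [local instance] MvPolynomial.gradedAlgebra

section Alg2

variable {k : Type u} [Field k]

lemma eq_zero_of_comp {σ : Type*} (F : MvPolynomial σ k) (h : ∀ m, homogeneousComponent m F = 0) :
    F = 0 := by
  rw [← sum_homogeneousComponent F]
  exact Finset.sum_eq_zero fun i _ => h i

lemma homComp_one {n : ℕ} (p : MvPolynomial (Fin n) k) :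
    homogeneousComponent 1 p = ∑ j, C (coeff (Finsupp.single j 1) p) * X j := by
  ext d
  rw [coeff_homogeneousComponent, coeff_sum]
  simp only [coeff_C_mul, coeff_X]
  split_ifs with h
  · have hd : d ∈ Set.range (fun a : Fin n => Finsupp.single a 1) := by
      rw [Finsupp.range_single_one]; exact h
    obtain ⟨j, rfl⟩ := hd
    rw [Finset.sum_eq_single j]
    · simp
    · intro i _ hij
      rw [if_neg, mul_zero]
      intro h2
      exact hij (Finsupp.single_left_injective one_ne_zero h2)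
    · simp
  · symm
    apply Finset.sum_eq_zero
    intro i _
    rw [if_neg, mul_zero]
    rintro rfl
    exact h (by simp)

/-- polynomials without terms of degree less than `n` -/
def OrdGE {σ : Type*} (n : ℕ) (p : MvPolynomial σ k) : Prop := ∀ m < n, homogeneousComponent m p = 0

lemma OrdGE.mul {σ : Type*} {n i : ℕ} {p a : MvPolynomial σ k} (hp : OrdGE n p)
    (ha : a ∈ homogeneousSubmodule σ k i) : OrdGE (i + n) (a * p) := by
  intro m hm
  by_cases h : m < i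
  · exact homComp_mul_of_lt ha p h
  · obtain ⟨j, rfl⟩ := Nat.exists_eq_add_of_le (not_lt.mp h)
    rw [homComp_mul ha, hp j (by omega), mul_zero]

lemma OrdGE.sub {σ : Type*} {n : ℕ} {p q : MvPolynomial σ k} (hp : OrdGE n p)
    (hq : OrdGE n q) : OrdGE n (p - q) := by
  intro m hm
  rw [map_sub, hp m hm, hq m hm, sub_zero]

lemma ordGE_two {n : ℕ} {p : MvPolynomial (Fin n) k} (h0 : constantCoeff p = 0)
    (h1 : ∀ j, coeff (Finsupp.single j 1) p = 0) : OrdGE 2 p := by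
  intro m hm
  interval_cases m
  · rw [homogeneousComponent_zero]
    have : coeff 0 p = 0 := h0
    rw [this, C_0]
  · rw [homComp_one]
    exact Finset.sum_eq_zero fun j _ => by rw [h1, C_0, zero_mul]

lemma eq_zero_of_ord {σ : Type*} (F : MvPolynomial σ k) (n : ℕ) (h : OrdGE n F)
    (h' : ∀ m, n ≤ m → homogeneousComponent m F = 0) : F = 0 := by
  apply eq_zero_of_comp
  intro m
  by_cases hm : m < n
  · exact h m hm
  · exact h' m (not_lt.mp hm)

lemma quartic_ne_zero : (X 2 ^ 4 - X 0 ^ 2 * X 1 ^ 2 : MvPolynomial (Fin 3) k) ≠ 0 := by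
  intro h
  have := congrArg (aeval (fun i : Fin 3 => if i = 2 then (1 : k) else 0)) h
  simp at this

variable [CharP k 2]

variable {R : Type*} [CommRing R] (ρ0 ρ1 : MvPolynomial (Fin 3) k →+* R)
  (hC : ∀ c, ρ0 (C c) = ρ1 (C c)) (hX : ∀ j, ρ0 (X j) = ρ0 (tau k) * ρ1 (X j))
  (hinj : Function.Injective ρ0)
  (D0 D1 : Derivation k (MvPolynomial (Fin 3) k) (MvPolynomial (Fin 3) k))
  (D : R → R) (hD : ∀ x y, D (x * y) = x * D y + y * D x)
  (h0 : ∀ p, D (ρ0 p) = ρ0 (D0 p)) (h1 : ∀ p, D (ρ1 p) = ρ1 (D1 p))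

include hX hD h0 h1 in
lemma der_rel (j : Fin 3) :
    ρ0 (tau k) ^ 2 * ρ1 (D1 (X j)) = ρ0 (tau k * D0 (X j) - X j * D0 (tau k)) := by
  have e1 := congrArg D (hX j)
  rw [hD, h0, h0, h1] at e1
  rw [map_sub, map_mul, map_mul, e1, hX j]
  ring

lemma D0_tau : D0 (tau k) = X 1 * D0 (X 0) + X 0 * D0 (X 1) := by
  have h2 : (2 : MvPolynomial (Fin 3) k) = 0 := by
    have := CharP.cast_eq_zero (MvPolynomial (Fin 3) k) 2
    exact_mod_cast this
  rw [tau, map_add, Derivation.leibniz, Derivation.leibniz_pow]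
  simp only [smul_eq_mul, nsmul_eq_mul, Nat.cast_ofNat, h2]
  ring

include hC hX hinj hD h0 h1 in
theorem der_eq_zero (hP : ∀ j, constantCoeff (D1 (X j)) = 0)
    (hc : ∀ j, constantCoeff (D0 (X j)) = 0)
    (hl : ∀ i j, (i, j) ≠ (0, 1) → coeff (Finsupp.single i 1) (D0 (X j)) = 0) (j : Fin 3) :
    D0 (X j) = 0 := by
  have ha : (X 0 ^ 2 : MvPolynomial (Fin 3) k) ∈ homogeneousSubmodule (Fin 3) k 2 :=
    (isHomogeneous_X k (0 : Fin 3)).pow 2
  have hb : (X 1 ^ 2 : MvPolynomial (Fin 3) k) ∈ homogeneousSubmodule (Fin 3) k 2 :=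
    (isHomogeneous_X k (1 : Fin 3)).pow 2
  have hcc : (X 2 ^ 2 : MvPolynomial (Fin 3) k) ∈ homogeneousSubmodule (Fin 3) k 2 :=
    (isHomogeneous_X k (2 : Fin 3)).pow 2
  have r0 := der_rel ρ0 ρ1 hX D0 D1 D hD h0 h1 0
  have r1 := der_rel ρ0 ρ1 hX D0 D1 D hD h0 h1 1
  have r2 := der_rel ρ0 ρ1 hX D0 D1 D hD h0 h1 2
  have o0 : OrdGE 2 (D0 (X 0)) := ordGE_two (hc 0) (fun i => hl i 0 (by simp))
  have o2 : OrdGE 2 (D0 (X 2)) := ordGE_two (hc 2) (fun i => hl i 2 (by simp))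
  have f0 : tau k * D0 (X 0) - X 0 * D0 (tau k) = X 2 ^ 2 * D0 (X 0) - X 0 ^ 2 * D0 (X 1) := by
    rw [D0_tau, tau]; ring
  have f1 : tau k * D0 (X 1) - X 1 * D0 (tau k) = X 2 ^ 2 * D0 (X 1) - X 1 ^ 2 * D0 (X 0) := by
    rw [D0_tau, tau]; ring
  rw [f0] at r0
  rw [f1] at r1
  -- the coefficient of `a` in `D0 b` vanishes
  have hβ : coeff (Finsupp.single 0 1) (D0 (X 1)) = 0 := by
    obtain ⟨q, hq⟩ := comp_three ρ0 ρ1 hC hX hinj _ _ r0
    have e1 : homogeneousComponent 3 (X 2 ^ 2 * D0 (X 0) - X 0 ^ 2 * D0 (X 1)) =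
        - (X 0 ^ 2 * (C (coeff (Finsupp.single 0 1) (D0 (X 1))) * X 0)) := by
      have e2 := homComp_mul hcc (D0 (X 0)) 1
      have e3 := homComp_mul ha (D0 (X 1)) 1
      rw [o0 1 (by norm_num), mul_zero] at e2
      rw [homComp_one, Fin.sum_univ_three, hl 1 1 (by simp), hl 2 1 (by simp), C_0, zero_mul,
        zero_mul, add_zero, add_zero] at e3
      rw [map_sub, e2, e3, zero_sub]
    rw [e1] at hq
    have e4 := congrArg (aeval (fun i : Fin 3 => if i = 0 then (1 : k) else 0)) hq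
    simpa [tau] using e4
  have o1 : OrdGE 2 (D0 (X 1)) := by
    refine ordGE_two (hc 1) fun i => ?_
    by_cases hi : i = 0
    · subst hi; exact hβ
    · exact hl i 1 (by simp [hi])
  have g0 : X 2 ^ 2 * D0 (X 0) - X 0 ^ 2 * D0 (X 1) = 0 :=
    eq_zero_of_ord _ 4 ((o0.mul hcc).sub (o1.mul ha))
      (fun m hm => comp_high ρ0 ρ1 hC hX hinj _ _ r0 (hP 0) m hm)
  have g1 : X 2 ^ 2 * D0 (X 1) - X 1 ^ 2 * D0 (X 0) = 0 :=
    eq_zero_of_ord _ 4 ((o1.mul hcc).sub (o0.mul hb))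
      (fun m hm => comp_high ρ0 ρ1 hC hX hinj _ _ r1 (hP 1) m hm)
  have z0 : D0 (X 0) = 0 := by
    have : (X 2 ^ 4 - X 0 ^ 2 * X 1 ^ 2 : MvPolynomial (Fin 3) k) * D0 (X 0) = 0 := by
      linear_combination X 2 ^ 2 * g0 + X 0 ^ 2 * g1
    exact (mul_eq_zero.mp this).resolve_left quartic_ne_zero
  have z1 : D0 (X 1) = 0 := by
    rw [z0, mul_zero, zero_sub, neg_eq_zero] at g0
    exact (mul_eq_zero.mp g0).resolve_left (pow_ne_zero _ (X_ne_zero _))
  have f2 : tau k * D0 (X 2) - X 2 * D0 (tau k) = tau k * D0 (X 2) := by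
    rw [D0_tau, z0, z1]; ring
  rw [f2] at r2
  have z2 : D0 (X 2) = 0 := by
    have g2 : tau k * D0 (X 2) = 0 :=
      eq_zero_of_ord _ 4 (o2.mul tau_mem)
        (fun m hm => comp_high ρ0 ρ1 hC hX hinj _ _ r2 (hP 2) m hm)
    exact (mul_eq_zero.mp g2).resolve_left tau_ne_zero
  fin_cases j
  · exact z0
  · exact z1
  · exact z2

end Alg2

end Pool.Agent.Helper44
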