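import Mathlib

open AlgebraicGeometry CategoryTheory TopologicalSpace Opposite

universe u

noncomputable section

namespace Pool.Agent.Helper44

/-- Restriction of a section of the structure sheaf of `X` from `V` to a smaller open `W`. -/
abbrev rs {X : Scheme.{u}} {V W : X.Opens} (h : W ≤ V) (f : Γ(X, V)) : Γ(X, W) :=
  (X.presheaf.map (homOfLE h).op).hom f

lemma rs_rs {X : Scheme.{u}} {V W T : X.Opens} (h : W ≤ V) (h' : T ≤ W) (f : Γ(X, V)) :
    rs h' (rs h f) = rs (h'.trans h) f := by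
  simp only [rs]
  rw [← CommRingCat.comp_apply, ← X.presheaf.map_comp]
  rfl

/-- `SheafDer X Z U`: derivations of the sheaf of rings `O_X` restricted to `U` which kill all
sections belonging to the family `Z`. -/
@[ext]
structure SheafDer (X : Scheme.{u}) (Z : ∀ V : X.Opens, Set Γ(X, V)) (U : X.Opens) where
  /-- the additive maps on sections over all opens inside `U` -/
  D : ∀ V : X.Opens, V ≤ U → Γ(X, V) →+ Γ(X, V)
  leibniz : ∀ (V : X.Opens) (hV : V ≤ U) (f g : Γ(X, V)), D V hV (f * g) = f * D V hV g + g * D V hV f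
  res : ∀ (V W : X.Opens) (hV : V ≤ U) (h : W ≤ V) (f : Γ(X, V)),
    rs h (D V hV f) = D W (h.trans hV) (rs h f)
  kills : ∀ (V : X.Opens) (hV : V ≤ U), ∀ f ∈ Z V, D V hV f = 0

namespace SheafDer

variable {X : Scheme.{u}} {Z : ∀ V : X.Opens, Set Γ(X, V)} {U : X.Opens}

instance : Zero (SheafDer X Z U) where
  zero := ⟨fun _ _ => 0, by simp, by simp, by simp⟩

instance : Add (SheafDer X Z U) where
  add a b := ⟨fun V hV => a.D V hV + b.D V hV,
    fun V hV f g => by simp only [AddMonoidHom.add_apply, a.leibniz, b.leibniz]; ring,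
    fun V W hV h f => by
      have h1 := a.res V W hV h f
      have h2 := b.res V W hV h f
      simp only [rs, AddMonoidHom.add_apply, map_add] at *
      rw [h1, h2],
    fun V hV f hf => by simp [a.kills V hV f hf, b.kills V hV f hf]⟩

instance : Neg (SheafDer X Z U) where
  neg a := ⟨fun V hV => - a.D V hV,
    fun V hV f g => by simp only [AddMonoidHom.neg_apply, a.leibniz]; ring,
    fun V W hV h f => by
      have h1 := a.res V W hV h f
      simp only [rs, AddMonoidHom.neg_apply, map_neg] at *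
      rw [h1],
    fun V hV f hf => by simp [a.kills V hV f hf]⟩

@[simp] lemma zero_D (V : X.Opens) (hV : V ≤ U) (f : Γ(X, V)) :
    (0 : SheafDer X Z U).D V hV f = 0 := rfl
@[simp] lemma add_D (a b : SheafDer X Z U) (V : X.Opens) (hV : V ≤ U) (f : Γ(X, V)) :
    (a + b).D V hV f = a.D V hV f + b.D V hV f := rfl
@[simp] lemma neg_D (a : SheafDer X Z U) (V : X.Opens) (hV : V ≤ U) (f : Γ(X, V)) :
    (-a).D V hV f = - a.D V hV f := rfl

lemma ext' {a b : SheafDer X Z U} (h : ∀ V hV f, a.D V hV f = b.D V hV f) : a = b := by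
  ext V hV f
  exact h V hV f

instance : AddCommGroup (SheafDer X Z U) where
  add_assoc a b c := ext' fun V hV f => by simp [add_assoc]
  zero_add a := ext' fun V hV f => by simp
  add_zero a := ext' fun V hV f => by simp
  add_comm a b := ext' fun V hV f => by simp [add_comm]
  neg_add_cancel a := ext' fun V hV f => by simp
  nsmul := nsmulRec
  zsmul := zsmulRec

instance : SMul Γ(X, U) (SheafDer X Z U) where
  smul r a := ⟨fun V hV => (AddMonoidHom.mulLeft (rs hV r)).comp (a.D V hV),
    fun V hV f g => by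
      simp only [AddMonoidHom.comp_apply, AddMonoidHom.coe_mulLeft, a.leibniz]; ring,
    fun V W hV h f => by
      have h1 := a.res V W hV h f
      have h2 := rs_rs hV h r
      simp only [rs, AddMonoidHom.comp_apply, AddMonoidHom.coe_mulLeft, map_mul] at *
      rw [h1, h2],
    fun V hV f hf => by simp [a.kills V hV f hf]⟩

@[simp] lemma smul_D (r : Γ(X, U)) (a : SheafDer X Z U) (V : X.Opens) (hV : V ≤ U) (f : Γ(X, V)) :
    (r • a).D V hV f = rs hV r * a.D V hV f := rfl

instance instModule : Module Γ(X, U) (SheafDer X Z U) where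
  one_smul a := ext' fun V _ f => by simp
  mul_smul r s a := ext' fun V _ f => by simp [mul_assoc]
  smul_zero r := ext' fun V _ f => by simp
  smul_add r a b := ext' fun V _ f => by simp [mul_add]
  add_smul r s a := ext' fun V _ f => by simp [add_mul]
  zero_smul a := ext' fun V _ f => by simp

/-- Restriction of a derivation to a smaller open. -/
def restrict {U' : X.Opens} (h : U' ≤ U) (a : SheafDer X Z U) : SheafDer X Z U' where
  D V hV := a.D V (hV.trans h)
  leibniz V hV := a.leibniz V _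
  res V W hV h' f := a.res V W _ h' f
  kills V hV := a.kills V _

@[simp] lemma restrict_D {U' : X.Opens} (h : U' ≤ U) (a : SheafDer X Z U) (V : X.Opens)
    (hV : V ≤ U') (f : Γ(X, V)) : (restrict h a).D V hV f = a.D V (hV.trans h) f := rfl

lemma D_eq_of_eq (a : SheafDer X Z U) {V W : X.Opens} (e : V = W) (hV : V ≤ U) (hW : W ≤ U)
    (f : Γ(X, V)) : rs e.ge (a.D V hV f) = a.D W hW (rs e.ge f) := a.res V W hV e.ge f

lemma eq_of_cover {V : X.Opens} {ι : Type u} (U : ι → X.Opens) (hcover : V ≤ iSup U)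
    (a b : Γ(X, V)) (h : ∀ i, rs (inf_le_left : V ⊓ U i ≤ V) a = rs (inf_le_left : V ⊓ U i ≤ V) b) :
    a = b := by
  refine X.sheaf.eq_of_locally_eq' (fun i => V ⊓ U i) V (fun i => homOfLE inf_le_left) ?_ a b ?_
  · rw [← inf_iSup_eq]
    exact le_inf le_rfl hcover
  · intro i
    exact h i

section glue

variable {ι : Type u} (W : ι → X.Opens) (sf : ∀ i, SheafDer X Z (W i))
  (hs : ∀ i j, restrict (inf_le_left : W i ⊓ W j ≤ W i) (sf i) =
    restrict (inf_le_right : W i ⊓ W j ≤ W j) (sf j))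

include hs in
lemma glue_aux (V : X.Opens) (hV : V ≤ iSup W) (f : Γ(X, V)) :
    ∃! g : Γ(X, V), ∀ i, rs (inf_le_left : V ⊓ W i ≤ V) g =
      (sf i).D (V ⊓ W i) inf_le_right (rs inf_le_left f) := by
  have := X.sheaf.existsUnique_gluing' (fun i => V ⊓ W i) V (fun i => homOfLE inf_le_left)
    (by rw [← inf_iSup_eq]; exact le_inf le_rfl hV)
    (fun i => (sf i).D (V ⊓ W i) inf_le_right (rs inf_le_left f)) ?_
  · exact this
  · intro i j
    have h1 := (sf i).res (V ⊓ W i) ((V ⊓ W i) ⊓ (V ⊓ W j)) inf_le_right inf_le_left (rs inf_le_left f)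
    have h2 := (sf j).res (V ⊓ W j) ((V ⊓ W i) ⊓ (V ⊓ W j)) inf_le_right inf_le_right (rs inf_le_left f)
    refine h1.trans (Eq.trans ?_ h2.symm)
    rw [rs_rs, rs_rs]
    have hle : (V ⊓ W i) ⊓ (V ⊓ W j) ≤ W i ⊓ W j := inf_le_inf inf_le_right inf_le_right
    have h3 := congrArg (fun a => a.D ((V ⊓ W i) ⊓ (V ⊓ W j)) hle
      (rs (inf_le_left.trans inf_le_left) f)) (hs i j)
    exact h3

/-- The glued value. -/
def glueFun (V : X.Opens) (hV : V ≤ iSup W) (f : Γ(X, V)) : Γ(X, V) :=
  (glue_aux W sf hs V hV f).choose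

lemma glueFun_spec (V : X.Opens) (hV : V ≤ iSup W) (f : Γ(X, V)) (i : ι) :
    rs (inf_le_left : V ⊓ W i ≤ V) (glueFun W sf hs V hV f) =
      (sf i).D (V ⊓ W i) inf_le_right (rs inf_le_left f) :=
  (glue_aux W sf hs V hV f).choose_spec.1 i

/-- Gluing of derivations. -/
def glue (hZ : ∀ (V W : X.Opens) (h : W ≤ V) (f : Γ(X, V)), f ∈ Z V → rs h f ∈ Z W) :
    SheafDer X Z (iSup W) where
  D V hV :=
    { toFun := glueFun W sf hs V hV
      map_zero' := by
        refine eq_of_cover W hV _ _ fun i => ?_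
        rw [glueFun_spec]
        simp [rs]
      map_add' := fun f g => by
        refine eq_of_cover W hV _ _ fun i => ?_
        have h1 := glueFun_spec W sf hs V hV f i
        have h2 := glueFun_spec W sf hs V hV g i
        have h3 := glueFun_spec W sf hs V hV (f + g) i
        simp only [rs, map_add] at *
        rw [h1, h2, h3] }
  leibniz V hV f g := by
    refine eq_of_cover W hV _ _ fun i => ?_
    have h1 := glueFun_spec W sf hs V hV f i
    have h2 := glueFun_spec W sf hs V hV g i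
    have h3 := glueFun_spec W sf hs V hV (f * g) i
    simp only [AddMonoidHom.coe_mk, ZeroHom.coe_mk]
    simp only [rs, map_add, map_mul] at *
    rw [h1, h2, h3, (sf i).leibniz]
  res V V' hV h f := by
    refine eq_of_cover W (h.trans hV) _ _ fun i => ?_
    have h1 := glueFun_spec W sf hs V hV f i
    have h2 := glueFun_spec W sf hs V' (h.trans hV) (rs h f) i
    simp only [AddMonoidHom.coe_mk, ZeroHom.coe_mk]
    rw [h2, rs_rs, rs_rs]
    have h3 : V' ⊓ W i ≤ V ⊓ W i := inf_le_inf h le_rfl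
    have h4 := congrArg (fun a => rs h3 a) h1
    simp only [rs_rs] at h4
    rw [h4, (sf i).res _ _ _ h3, rs_rs]
  kills V hV f hf := by
    refine eq_of_cover W hV _ _ fun i => ?_
    simp only [AddMonoidHom.coe_mk, ZeroHom.coe_mk]
    rw [glueFun_spec, (sf i).kills _ _ _ (hZ _ _ _ _ hf)]
    simp [rs]

end glue

end SheafDer

/-- The presheaf of abelian groups `U ↦ SheafDer X Z U`. -/
def derAb (X : Scheme.{u}) (Z : ∀ V : X.Opens, Set Γ(X, V)) : TopCat.Presheaf Ab.{u} X where
  obj U := AddCommGrpCat.of (SheafDer X Z U.unop)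
  map i := AddCommGrpCat.ofHom
    { toFun := fun a => SheafDer.restrict i.unop.le a
      map_zero' := rfl
      map_add' := fun _ _ => rfl }
  map_id _ := rfl
  map_comp _ _ := rfl

lemma SheafDer.existsUnique_glue {X : Scheme.{u}} {Z : ∀ V : X.Opens, Set Γ(X, V)}
    (hZ : ∀ (V W : X.Opens) (h : W ≤ V) (f : Γ(X, V)), f ∈ Z V → rs h f ∈ Z W)
    {ι : Type u} (W : ι → X.Opens) (sf : ∀ i, SheafDer X Z (W i))
    (hs : ∀ i j, SheafDer.restrict (inf_le_left : W i ⊓ W j ≤ W i) (sf i) =
      SheafDer.restrict (inf_le_right : W i ⊓ W j ≤ W j) (sf j)) :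
    ∃! t : SheafDer X Z (iSup W), ∀ i, SheafDer.restrict (le_iSup W i) t = sf i := by
  refine ⟨SheafDer.glue W sf hs hZ, ?_, ?_⟩
  · intro i
    refine SheafDer.ext' fun V hV f => ?_
    change SheafDer.glueFun W sf hs V (hV.trans (le_iSup W i)) f = (sf i).D V hV f
    refine SheafDer.eq_of_cover W (hV.trans (le_iSup W i)) _ _ fun j => ?_
    rw [SheafDer.glueFun_spec, (sf i).res _ _ _ inf_le_left]
    have hle : V ⊓ W j ≤ W i ⊓ W j := inf_le_inf hV le_rfl
    have h3 := congrArg (fun a => a.D (V ⊓ W j) hle (rs inf_le_left f)) (hs i j)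
    exact h3.symm
  · intro t ht
    refine SheafDer.ext' fun V hV f => ?_
    change t.D V hV f = SheafDer.glueFun W sf hs V hV f
    refine SheafDer.eq_of_cover W hV _ _ fun j => ?_
    rw [SheafDer.glueFun_spec, t.res _ _ _ inf_le_left]
    have h3 := congrArg (fun a => a.D (V ⊓ W j) inf_le_right (rs inf_le_left f)) (ht j)
    exact h3

lemma derAb_isSheaf (X : Scheme.{u}) (Z : ∀ V : X.Opens, Set Γ(X, V))
    (hZ : ∀ (V W : X.Opens) (h : W ≤ V) (f : Γ(X, V)), f ∈ Z V → rs h f ∈ Z W) :
    (derAb X Z).IsSheaf := by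
  rw [TopCat.Presheaf.isSheaf_iff_isSheafUniqueGluing]
  intro ι W sf hs
  exact SheafDer.existsUnique_glue hZ W sf hs

instance derAb_module (X : Scheme.{u}) (Z : ∀ V : X.Opens, Set Γ(X, V))
    (U : (TopologicalSpace.Opens X)ᵒᵖ) :
    Module (X.ringCatSheaf.obj.obj U) ((derAb X Z).obj U) :=
  SheafDer.instModule (X := X) (Z := Z) (U := U.unop)

lemma restrict_smul (X : Scheme.{u}) (Z : ∀ V : X.Opens, Set Γ(X, V))
    (U V : (TopologicalSpace.Opens X)ᵒᵖ) (i : U ⟶ V) (r : Γ(X, U.unop))
    (m : SheafDer X Z U.unop) :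
    SheafDer.restrict i.unop.le (r • m) = rs i.unop.le r • SheafDer.restrict i.unop.le m := by
  refine SheafDer.ext' fun T hT f => ?_
  have h1 : rs (hT.trans i.unop.le) r = rs hT (rs i.unop.le r) := (rs_rs i.unop.le hT r).symm
  exact congrArg (fun t => t * m.D T (hT.trans i.unop.le) f) h1

/-- The sheaf of `O_X`-modules `U ↦ SheafDer X Z U`. -/
def derSheaf (X : Scheme.{u}) (Z : ∀ V : X.Opens, Set Γ(X, V))
    (hZ : ∀ (V W : X.Opens) (h : W ≤ V) (f : Γ(X, V)), f ∈ Z V → rs h f ∈ Z W) : X.Modules where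
  val := PresheafOfModules.ofPresheaf (derAb X Z) (restrict_smul X Z)
  isSheaf := derAb_isSheaf X Z hZ

end Pool.Agent.Helper44
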