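import Pool.Agent.Helper44.FamDer
import Pool.Agent.Helper44.DerSheaf

/-!
The relative tangent sheaf of a morphism of schemes, invertible sheaves, very ample sheaves.
-/

open AlgebraicGeometry CategoryTheory TopologicalSpace Opposite

universe u

noncomputable section

namespace Pool.Agent.Helper44

/-- Sections of the structure sheaf of `X` over `V` which are pulled back from the base `S`. -/
def baseSections {X S : Scheme.{u}} (s : X ⟶ S) (V : X.Opens) : Set Γ(X, V) :=
  {f | ∃ (W : S.Opens) (h : V ≤ s ⁻¹ᵁ W) (c : Γ(S, W)), (s.appLE W V h).hom c = f}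

lemma baseSections_res {X S : Scheme.{u}} (s : X ⟶ S) (V W : X.Opens) (h : W ≤ V) (f : Γ(X, V))
    (hf : f ∈ baseSections s V) : rs h f ∈ baseSections s W := by
  obtain ⟨T, hT, c, rfl⟩ := hf
  refine ⟨T, h.trans hT, c, ?_⟩
  rw [← Scheme.Hom.appLE_map s hT (homOfLE h).op]
  rfl

/-- The presheaf of derivations of the structure sheaf of `X` which kill all sections pulled
back from `S`: over `U`, the families of maps `D V : O(V) → O(V)`, `V ≤ U`, which are additive,
satisfy the Leibniz rule, commute with restriction and kill `baseSections s V`. -/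
def tangentPresheaf {X S : Scheme.{u}} (s : X ⟶ S) : TopCat.Presheaf Ab.{u} X :=
  famFunctor X.presheaf (baseSections s)

instance tangentModule {X S : Scheme.{u}} (s : X ⟶ S) (U : (TopologicalSpace.Opens X)ᵒᵖ) :
    Module (X.ringCatSheaf.obj.obj U) ((tangentPresheaf s).obj U) :=
  FamDer.instModule (F := X.presheaf) (Z := baseSections s) (U := U.unop)

lemma tangent_smul {X S : Scheme.{u}} (s : X ⟶ S) :
    FamDer.SMulCompat X.presheaf (baseSections s) := FamDer.smulCompat _ _

section bridge

variable {X : Scheme.{u}} {Z : ∀ V : X.Opens, Set Γ(X, V)} {U : X.Opens}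

/-- Conversion. -/
def toSD (D : FamDer X.presheaf Z U) : SheafDer X Z U where
  D := D.D
  leibniz := D.leibniz
  res := D.res
  kills := D.kills

/-- Conversion. -/
def ofSD (D : SheafDer X Z U) : FamDer X.presheaf Z U where
  D := D.D
  leibniz := D.leibniz
  res := D.res
  kills := D.kills

end bridge

lemma tangent_isSheaf {X S : Scheme.{u}} (s : X ⟶ S) : (tangentPresheaf s).IsSheaf := by
  rw [TopCat.Presheaf.isSheaf_iff_isSheafUniqueGluing]
  intro ι W sf hs
  obtain ⟨t, ht, hu⟩ := SheafDer.existsUnique_glue (baseSections_res s) W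
    (fun i => toSD (sf i)) (fun i j => congrArg toSD (hs i j))
  exact ⟨ofSD t, fun i => congrArg ofSD (ht i),
    fun t' ht' => congrArg ofSD (hu (toSD t') (fun i => congrArg toSD (ht' i)))⟩

/-- The relative tangent sheaf of `s : X ⟶ S`, as a sheaf of `O_X`-modules. -/
def tangentSheaf {X S : Scheme.{u}} (s : X ⟶ S) : X.Modules where
  val := PresheafOfModules.ofPresheaf (tangentPresheaf s) (tangent_smul s)
  isSheaf := tangent_isSheaf s

/-- Restriction of sections of a sheaf of modules. -/
abbrev rsM {X : Scheme.{u}} (L : X.Modules) {V W : X.Opens} (h : W ≤ V) (t : Γ(L, V)) : Γ(L, W) :=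
  (L.presheaf.map (homOfLE h).op).hom t

/-- The section `t` of `L` over `U` generates `L` freely on `U`. -/
def FreelyGenerates {X : Scheme.{u}} (L : X.Modules) {U : X.Opens} (t : Γ(L, U)) : Prop :=
  ∀ (V : X.Opens) (h : V ≤ U) (t' : Γ(L, V)), ∃! x : Γ(X, V), t' = x • rsM L h t

/-- `L` is an invertible sheaf: every point has an open neighbourhood on which `L` is free on one
generator. -/
def IsInvertible {X : Scheme.{u}} (L : X.Modules) : Prop :=
  ∀ x : X, ∃ U : X.Opens, x ∈ U ∧ ∃ t : Γ(L, U), FreelyGenerates L t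

/-- The set of points near which the global section `t` generates `L` freely. -/
def nonvanishing {X : Scheme.{u}} (L : X.Modules) (t : Γ(L, ⊤)) : Set X :=
  {x | ∃ U : X.Opens, x ∈ U ∧ FreelyGenerates L (rsM L (le_top : U ≤ ⊤) t)}

/-- The sheaf `L` is very ample relative to `s : X ⟶ S`: there are global sections
`t_0, …, t_N` whose nonvanishing loci `U_i` are affine and cover `X`, and for each `i` the ring
`O(U_i)` is generated by the sections coming from the base and the ratios `t_j / t_i`. -/
def IsVeryAmple {X S : Scheme.{u}} (s : X ⟶ S) (L : X.Modules) : Prop :=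
  ∃ (N : ℕ) (t : Fin (N + 1) → Γ(L, ⊤)) (U : Fin (N + 1) → X.Opens),
    ⨆ i, U i = ⊤ ∧ ∀ i, IsAffineOpen (U i) ∧ (U i : Set X) = nonvanishing L (t i) ∧
      ∃ r : Fin (N + 1) → Γ(X, U i),
        (∀ j, rsM L (le_top : U i ≤ ⊤) (t j) = r j • rsM L (le_top : U i ≤ ⊤) (t i)) ∧
        Subring.closure (baseSections s (U i) ∪ Set.range r) = ⊤

end Pool.Agent.Helper44
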