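import Pool.Agent.Helper44.QuadDer

open MvPolynomial

universe u
noncomputable section

namespace Pool.Agent.Helper44

attribute [local instance] MvPolynomial.gradedAlgebra

/-- A homogeneous polynomial of degree `n` scales by `t ^ n`. -/
lemma hom_scale {k : Type u} [Field k] {σ : Type*} {L : Type*} [CommRing L]
    (f g : MvPolynomial σ k →+* L) (hC : ∀ c, f (C c) = g (C c)) (t : L)
    (hX : ∀ j, f (X j) = t * g (X j)) {n : ℕ} {p : MvPolynomial σ k}
    (hp : p ∈ homogeneousSubmodule σ k n) : f p = t ^ n * g p := by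
  rw [mem_homogeneousSubmodule] at hp
  rw [p.as_sum, map_sum, map_sum, Finset.mul_sum]
  refine Finset.sum_congr rfl fun m hm => ?_
  have hdeg : m.degree = n := (hp.degree_eq_sum_deg_support hm).symm
  rw [monomial_eq, map_mul, map_mul, hC, Finsupp.prod, map_prod, map_prod]
  have : ∏ i ∈ m.support, f (X i ^ m i) = t ^ n * ∏ i ∈ m.support, g (X i ^ m i) := by
    rw [← hdeg, Finsupp.degree_apply, ← Finset.prod_pow_eq_pow_sum, ← Finset.prod_mul_distrib]
    refine Finset.prod_congr rfl fun i _ => ?_
    rw [map_pow, map_pow, hX, mul_pow]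
  rw [this]
  ring

variable (k : Type u) [Field k]

open HomogeneousLocalization

/-- The homogeneous coordinates on the quadric. -/
def xq (j : Fin 5) : QuadRing k := Ideal.Quotient.mk _ (X j)

lemma xq_mem (j : Fin 5) : xq k j ∈ quadGrading k 1 :=
  ⟨X j, isHomogeneous_X k j, rfl⟩

lemma xq_rel : xq k 0 * xq k 1 + xq k 2 * xq k 3 + xq k 4 ^ 2 = 0 := by
  have : Ideal.Quotient.mk (Ideal.span {quad k}) (quad k) = 0 :=
    Ideal.Quotient.eq_zero_iff_mem.mpr (Ideal.subset_span rfl)
  exact this

/-- The fraction `x_j / x_i` in the degree zero localization away from `x_i`. -/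
def fracq (i j : Fin 5) : Away (quadGrading k) (xq k i) :=
  Away.mk (quadGrading k) (xq_mem k i) 1 (xq k j) (by simpa using xq_mem k j)

lemma algebraMap_mul_val_fracq (i j : Fin 5) :
    algebraMap _ (Localization.Away (xq k i)) (xq k i) * (fracq k i j).val =
      algebraMap _ _ (xq k j) := by
  rw [fracq, Away.val_mk, Localization.mk_eq_mk', mul_comm]
  have := IsLocalization.mk'_spec (Localization.Away (xq k i)) (xq k j)
    (⟨xq k i ^ 1, ⟨1, rfl⟩⟩ : Submonoid.powers (xq k i))
  simp only [pow_one] at this ⊢
  exact this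

/-- Images of the homogeneous coordinates under dehomogenization in the chart `i`. -/
def dehomVar (i : Fin 4) : Fin 5 → MvPolynomial (Fin 3) k :=
  match i with
  | 0 => ![1, -(X 0 * X 1 + X 2 ^ 2), X 0, X 1, X 2]
  | 1 => ![-(X 0 * X 1 + X 2 ^ 2), 1, X 0, X 1, X 2]
  | 2 => ![X 0, X 1, 1, -(X 0 * X 1 + X 2 ^ 2), X 2]
  | 3 => ![X 0, X 1, -(X 0 * X 1 + X 2 ^ 2), 1, X 2]

/-- The indices of the affine coordinates in chart `i`. -/
def coordIdx (i : Fin 4) : Fin 3 → Fin 5 :=
  match i with
  | 0 => ![2, 3, 4]
  | 1 => ![2, 3, 4]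
  | 2 => ![0, 1, 4]
  | 3 => ![0, 1, 4]

lemma dehomVar_self (i : Fin 4) : dehomVar k i i.castSucc = 1 := by
  fin_cases i <;> rfl

lemma dehomVar_coordIdx (i : Fin 4) (j : Fin 3) : dehomVar k i (coordIdx i j) = X j := by
  fin_cases i <;> fin_cases j <;> rfl

/-- Dehomogenization in chart `i`. -/
def dehom (i : Fin 4) : QuadRing k →ₐ[k] MvPolynomial (Fin 3) k :=
  Ideal.Quotient.liftₐ _ (aeval (dehomVar k i)) (by
    intro a ha
    obtain ⟨b, rfl⟩ := Ideal.mem_span_singleton'.mp ha
    rw [map_mul]
    have : aeval (dehomVar k i) (quad k) = 0 := by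
      fin_cases i <;> simp [quad, dehomVar]
    rw [this, mul_zero])

lemma dehom_xq (i : Fin 4) (j : Fin 5) : dehom k i (xq k j) = dehomVar k i j := by
  change aeval (dehomVar k i) (X j) = _
  rw [aeval_X]

lemma dehom_self (i : Fin 4) :
    (dehom k i : QuadRing k →+* MvPolynomial (Fin 3) k) (xq k i.castSucc) = 1 := by
  change dehom k i (xq k i.castSucc) = 1
  rw [dehom_xq, dehomVar_self]

lemma isUnit_dehom_self (i : Fin 4) :
    IsUnit ((dehom k i : QuadRing k →+* MvPolynomial (Fin 3) k) (xq k i.castSucc)) := by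
  rw [dehom_self]
  exact isUnit_one

/-- The extension of dehomogenization to the localization. -/
def locPoly (i : Fin 4) : Localization.Away (xq k i.castSucc) →+* MvPolynomial (Fin 3) k :=
  IsLocalization.Away.lift (xq k i.castSucc) (isUnit_dehom_self k i)

lemma locPoly_algebraMap (i : Fin 4) (a : QuadRing k) :
    locPoly k i (algebraMap _ _ a) = dehom k i a :=
  IsLocalization.Away.lift_eq _ _ _

/-- The map from the degree zero localization to the polynomial ring. -/
def toPoly (i : Fin 4) : Away (quadGrading k) (xq k i.castSucc) →+* MvPolynomial (Fin 3) k :=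
  (locPoly k i).comp (algebraMap _ _)

lemma toPoly_apply (i : Fin 4) (z : Away (quadGrading k) (xq k i.castSucc)) :
    toPoly k i z = locPoly k i z.val := rfl

lemma toPoly_fracq (i : Fin 4) (j : Fin 5) :
    toPoly k i (fracq k i.castSucc j) = dehomVar k i j := by
  have h := congrArg (locPoly k i) (algebraMap_mul_val_fracq k i.castSucc j)
  rw [map_mul, locPoly_algebraMap, locPoly_algebraMap, dehom_xq, dehom_xq, dehomVar_self,
    one_mul] at h
  exact h

/-- constants in the homogeneous localization -/
def constAway (a : QuadRing k) : k →+* Away (quadGrading k) a :=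
  (fromZeroRingHom (quadGrading k) _).comp (algebraMap k (quadGrading k 0))

lemma val_constAway (a : QuadRing k) (c : k) :
    (constAway k a c).val = algebraMap _ _ (algebraMap k (QuadRing k) c) := rfl

lemma toPoly_const (i : Fin 4) (c : k) : toPoly k i (constAway k _ c) = C c := by
  rw [toPoly_apply, val_constAway, locPoly_algebraMap]
  exact (dehom k i).commutes c

/-- The inverse map from the polynomial ring. -/
def fromPoly (i : Fin 4) : MvPolynomial (Fin 3) k →+* Away (quadGrading k) (xq k i.castSucc) :=
  eval₂Hom (constAway k _) (fun j => fracq k i.castSucc (coordIdx i j))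

lemma fromPoly_C (i : Fin 4) (c : k) : fromPoly k i (C c) = constAway k _ c := eval₂Hom_C _ _ _

lemma fromPoly_X (i : Fin 4) (j : Fin 3) :
    fromPoly k i (X j) = fracq k i.castSucc (coordIdx i j) := eval₂Hom_X' _ _ _

lemma toPoly_fromPoly (i : Fin 4) (p : MvPolynomial (Fin 3) k) :
    toPoly k i (fromPoly k i p) = p := by
  have : (toPoly k i).comp (fromPoly k i) = RingHom.id _ := by
    apply MvPolynomial.ringHom_ext
    · intro c
      simp [fromPoly_C, toPoly_const]
    · intro j
      simp [fromPoly_X, toPoly_fracq, dehomVar_coordIdx]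
  exact congrArg (fun f => f p) this

lemma isUnit_algebraMap_xq (i : Fin 5) :
    IsUnit (algebraMap (QuadRing k) (Localization.Away (xq k i)) (xq k i)) :=
  IsLocalization.Away.algebraMap_isUnit _

lemma fracq_self (i : Fin 5) : fracq k i i = 1 := by
  apply val_injective
  apply (isUnit_algebraMap_xq k i).mul_left_cancel
  rw [algebraMap_mul_val_fracq, val_one, mul_one]

lemma fracq_rel (i : Fin 5) :
    fracq k i 0 * fracq k i 1 + fracq k i 2 * fracq k i 3 + fracq k i 4 ^ 2 = 0 := by
  apply val_injective
  have h := fun j => algebraMap_mul_val_fracq k i j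
  have hr := congrArg (algebraMap (QuadRing k) (Localization.Away (xq k i))) (xq_rel k)
  simp only [map_add, map_mul, map_pow, map_zero, ← h 0, ← h 1, ← h 2, ← h 3, ← h 4] at hr
  apply ((isUnit_algebraMap_xq k i).pow 2).mul_left_cancel
  simp only [val_add, val_mul, val_pow, val_zero]
  linear_combination hr

lemma dehomVar_aux {R : Type*} [CommRing R] (φ : MvPolynomial (Fin 3) k →+* R) (F : Fin 5 → R)
    (i : Fin 4) (hs : F i.castSucc = 1) (hr : F 0 * F 1 + F 2 * F 3 + F 4 ^ 2 = 0)
    (hX : ∀ j, φ (X j) = F (coordIdx i j)) (j : Fin 5) : φ (dehomVar k i j) = F j := by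
  have h0 := hX 0
  have h1 := hX 1
  have h2 := hX 2
  match i with
  | 0 =>
    change F 0 = 1 at hs
    change φ (X 0) = F 2 at h0
    change φ (X 1) = F 3 at h1
    change φ (X 2) = F 4 at h2
    match j with
    | 0 => exact (map_one _).trans hs.symm
    | 1 =>
      change φ (-(X 0 * X 1 + X 2 ^ 2)) = F 1
      rw [map_neg, map_add, map_mul, map_pow, h0, h1, h2]
      rw [hs] at hr
      linear_combination -hr
    | 2 => exact h0
    | 3 => exact h1
    | 4 => exact h2
  | 1 =>
    change F 1 = 1 at hs
    change φ (X 0) = F 2 at h0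
    change φ (X 1) = F 3 at h1
    change φ (X 2) = F 4 at h2
    match j with
    | 0 =>
      change φ (-(X 0 * X 1 + X 2 ^ 2)) = F 0
      rw [map_neg, map_add, map_mul, map_pow, h0, h1, h2]
      rw [hs] at hr
      linear_combination -hr
    | 1 => exact (map_one _).trans hs.symm
    | 2 => exact h0
    | 3 => exact h1
    | 4 => exact h2
  | 2 =>
    change F 2 = 1 at hs
    change φ (X 0) = F 0 at h0
    change φ (X 1) = F 1 at h1
    change φ (X 2) = F 4 at h2
    match j with
    | 0 => exact h0
    | 1 => exact h1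
    | 2 => exact (map_one _).trans hs.symm
    | 3 =>
      change φ (-(X 0 * X 1 + X 2 ^ 2)) = F 3
      rw [map_neg, map_add, map_mul, map_pow, h0, h1, h2]
      rw [hs] at hr
      linear_combination -hr
    | 4 => exact h2
  | 3 =>
    change F 3 = 1 at hs
    change φ (X 0) = F 0 at h0
    change φ (X 1) = F 1 at h1
    change φ (X 2) = F 4 at h2
    match j with
    | 0 => exact h0
    | 1 => exact h1
    | 2 =>
      change φ (-(X 0 * X 1 + X 2 ^ 2)) = F 2
      rw [map_neg, map_add, map_mul, map_pow, h0, h1, h2]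
      rw [hs] at hr
      linear_combination -hr
    | 3 => exact (map_one _).trans hs.symm
    | 4 => exact h2

lemma fromPoly_dehomVar (i : Fin 4) (j : Fin 5) :
    fromPoly k i (dehomVar k i j) = fracq k i.castSucc j :=
  dehomVar_aux k (fromPoly k i) (fracq k i.castSucc) i (fracq_self k _) (fracq_rel k _)
    (fromPoly_X k i) j

/-- For a homogeneous element `a` of degree `n`, the fraction `a / x_i ^ n`
is recovered from its dehomogenization. -/
lemma fromPoly_dehom (i : Fin 4) (n : ℕ) (a : QuadRing k) (ha : a ∈ quadGrading k n) :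
    algebraMap _ (Localization.Away (xq k i.castSucc)) a =
      (algebraMap _ (Localization.Away (xq k i.castSucc)) (xq k i.castSucc)) ^ n *
        (fromPoly k i (dehom k i a)).val := by
  obtain ⟨p, hp, rfl⟩ := ha
  refine hom_scale
    ((algebraMap _ (Localization.Away (xq k i.castSucc))).comp (Ideal.Quotient.mk _))
    ((algebraMap (Away (quadGrading k) (xq k i.castSucc)) _).comp ((fromPoly k i).comp
      ((dehom k i : QuadRing k →+* MvPolynomial (Fin 3) k).comp (Ideal.Quotient.mk _)))) ?_ _ ?_ hp
  · intro c
    have h1 : dehom k i (algebraMap k (QuadRing k) c) = C c := (dehom k i).commutes c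
    change algebraMap _ _ (algebraMap k (QuadRing k) c) =
      (fromPoly k i (dehom k i (algebraMap k (QuadRing k) c))).val
    rw [h1, fromPoly_C, val_constAway]
  · intro j
    change algebraMap _ _ (xq k j) = _ * (fromPoly k i (dehom k i (xq k j))).val
    rw [dehom_xq, fromPoly_dehomVar, algebraMap_mul_val_fracq]

lemma toPoly_injective (i : Fin 4) : Function.Injective (toPoly k i) := by
  rw [injective_iff_map_eq_zero]
  intro z hz
  obtain ⟨n, a, ha, rfl⟩ := Away.mk_surjective (quadGrading k) (xq_mem k i.castSucc) z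
  have ha' : a ∈ quadGrading k n := by simpa using ha
  have h1 : algebraMap _ (Localization.Away (xq k i.castSucc)) (xq k i.castSucc ^ n) *
      (Away.mk (quadGrading k) (xq_mem k i.castSucc) n a ha).val = algebraMap _ _ a := by
    rw [Away.val_mk, Localization.mk_eq_mk', mul_comm]
    exact IsLocalization.mk'_spec (Localization.Away (xq k i.castSucc)) a
      (⟨xq k i.castSucc ^ n, ⟨n, rfl⟩⟩ : Submonoid.powers (xq k i.castSucc))
  have h2 := congrArg (locPoly k i) h1
  rw [map_mul, locPoly_algebraMap, locPoly_algebraMap, map_pow] at h2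
  have h3 : dehom k i (xq k i.castSucc) = 1 := dehom_self k i
  rw [h3, one_pow, one_mul] at h2
  rw [toPoly_apply] at hz
  rw [hz] at h2
  have h4 := fromPoly_dehom k i n a ha'
  rw [← h2, map_zero, val_zero, mul_zero] at h4
  rw [h4] at h1
  apply val_injective
  rw [val_zero]
  apply (((isUnit_algebraMap_xq k i.castSucc).pow n)).mul_left_cancel
  rw [← map_pow, h1, mul_zero]

/-- The degree zero localization away from `x_i` is a polynomial ring in three variables. -/
def chartEquiv (i : Fin 4) : Away (quadGrading k) (xq k i.castSucc) ≃+* MvPolynomial (Fin 3) k :=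
  RingEquiv.ofBijective (toPoly k i) ⟨toPoly_injective k i, fun p => ⟨_, toPoly_fromPoly k i p⟩⟩

end Pool.Agent.Helper44
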