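import Pool.Agent.Helper44.ProjDer3

open MvPolynomial AlgebraicGeometry CategoryTheory HomogeneousLocalization TopologicalSpace Opposite

universe u
noncomputable section

namespace Pool.Agent.Helper44

attribute [local instance] MvPolynomial.gradedAlgebra
section Mat

variable (k : Type u) [Field k]

/-- The derivation of the polynomial ring defined by a matrix. -/
def matDer (M : Fin 4 × Fin 4 → k) : Derivation k (MvPolynomial (Fin 4) k) (MvPolynomial (Fin 4) k) :=
  ∑ p : Fin 4 × Fin 4, M p • elemDer k p.1 p.2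

lemma matDer_apply (M : Fin 4 × Fin 4 → k) (a : MvPolynomial (Fin 4) k) :
    matDer k M a = ∑ p : Fin 4 × Fin 4, M p • elemDer k p.1 p.2 a := by
  rw [matDer, ← Derivation.coeFnAddMonoidHom_apply, map_sum, Finset.sum_apply]
  rfl

lemma matDer_mem (M : Fin 4 × Fin 4 → k) (n : ℕ) (a : MvPolynomial (Fin 4) k)
    (ha : a ∈ homogeneousSubmodule (Fin 4) k n) : matDer k M a ∈ homogeneousSubmodule (Fin 4) k n := by
  rw [matDer_apply]
  exact Submodule.sum_mem _ fun p _ => Submodule.smul_mem _ _ (elemDer_mem _ _ n a ha)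

lemma matDer_add (M M' : Fin 4 × Fin 4 → k) (a : MvPolynomial (Fin 4) k) :
    matDer k (M + M') a = matDer k M a + matDer k M' a := by
  simp only [matDer_apply, Pi.add_apply, add_smul, Finset.sum_add_distrib]

lemma matDer_smul (c : k) (M : Fin 4 × Fin 4 → k) (a : MvPolynomial (Fin 4) k) :
    matDer k (c • M) a = algebraMap k _ c * matDer k M a := by
  rw [← Algebra.smul_def]
  simp only [matDer_apply, Pi.smul_apply, smul_eq_mul, mul_smul, Finset.smul_sum]

lemma matDer_X (M : Fin 4 × Fin 4 → k) (j : Fin 4) :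
    matDer k M (X j) = ∑ i, C (M (i, j)) * X i := by
  rw [matDer_apply, Fintype.sum_prod_type]
  refine Finset.sum_congr rfl fun i _ => ?_
  rw [Finset.sum_eq_single j]
  · rw [elemDer, Derivation.smul_apply, pderiv_X_self, smul_eq_mul, mul_one, smul_eq_C_mul]
  · intro l _ hl
    rw [elemDer, Derivation.smul_apply, pderiv_X_of_ne hl.symm, smul_zero, smul_zero]
  · simp

/-- The global vector field on projective space defined by a matrix. -/
def P3der (M : Fin 4 × Fin 4 → k) : SheafDer (Proj (homogeneousSubmodule (Fin 4) k))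
    (baseSections (projStr (homogeneousSubmodule (Fin 4) k))) ⊤ :=
  projDer _ (matDer k M) (matDer_mem k M)

lemma P3der_add (M M' : Fin 4 × Fin 4 → k) (V : (Proj (homogeneousSubmodule (Fin 4) k)).Opens)
    (f : Γ(Proj (homogeneousSubmodule (Fin 4) k), V)) :
    (P3der k (M + M')).D V le_top f = (P3der k M).D V le_top f + (P3der k M').D V le_top f :=
  projDer_add (homogeneousSubmodule (Fin 4) k) (matDer k M) (matDer k M') (matDer k (M + M'))
    (matDer_mem k M) (matDer_mem k M') (matDer_mem k _) (matDer_add k M M') V f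

lemma P3der_smul (c : k) (M : Fin 4 × Fin 4 → k) (V : (Proj (homogeneousSubmodule (Fin 4) k)).Opens)
    (f : Γ(Proj (homogeneousSubmodule (Fin 4) k), V)) :
    (P3der k (c • M)).D V le_top f =
      kConst (projStr (homogeneousSubmodule (Fin 4) k)) V c * (P3der k M).D V le_top f :=
  projDer_smul (homogeneousSubmodule (Fin 4) k) c (matDer k M) (matDer k (c • M))
    (matDer_mem k M) (matDer_mem k _) (matDer_smul k c M) V f

lemma X_mem_bot (j : Fin 4) :
    (X j : MvPolynomial (Fin 4) k) ∉ (⊥ : HomogeneousIdeal (homogeneousSubmodule (Fin 4) k)) := by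
  intro h
  have h1 : (X j : MvPolynomial (Fin 4) k) ∈ (⊥ : Ideal (MvPolynomial (Fin 4) k)) := h
  exact X_ne_zero j ((Ideal.mem_bot).mp h1)

/-- The generic point of projective space. -/
def P3gen : Proj (homogeneousSubmodule (Fin 4) k) :=
  ⟨⊥, Ideal.isPrime_bot, fun h =>
    X_mem_bot k 0 (h (HomogeneousIdeal.mem_irrelevant_of_mem _ one_pos (isHomogeneous_X k (0 : Fin 4))))⟩

lemma P3der_rel (M : Fin 4 × Fin 4 → k)
    (h : ∀ V f, (P3der k M).D V le_top f = 0) (j : Fin 4) :
    X 0 * matDer k M (X j) = X j * matDer k M (X 0) := by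
  have hX0 : (X 0 : MvPolynomial (Fin 4) k) ∈ homogeneousSubmodule (Fin 4) k 1 := isHomogeneous_X k _
  have hXj : (X j : MvPolynomial (Fin 4) k) ∈ homogeneousSubmodule (Fin 4) k 1 := isHomogeneous_X k _
  have hη : P3gen k ∈ Proj.basicOpen (homogeneousSubmodule (Fin 4) k) (X 0) := X_mem_bot k 0
  have h1 := projDer_fracSec (homogeneousSubmodule (Fin 4) k) (matDer k M) (matDer_mem k M)
    (X j) (X 0) hXj hX0 le_rfl ⟨P3gen k, hη⟩
  have h2 := h (Proj.basicOpen (homogeneousSubmodule (Fin 4) k) (X 0)) (rs le_rfl (fracSec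
    (homogeneousSubmodule (Fin 4) k) (X j) (X 0) hXj hX0))
  rw [P3der] at h2
  rw [h2, val_zero', eq_comm, ← Localization.mk_zero 1, Localization.mk_eq_mk_iff,
    Localization.r_iff_exists] at h1
  obtain ⟨c, hc⟩ := h1
  have hc0 : (c : MvPolynomial (Fin 4) k) ≠ 0 := by
    intro h3
    exact c.2 (by rw [h3]; exact Ideal.zero_mem _)
  simp only [OneMemClass.coe_one, one_mul, mul_zero] at hc
  have := (mul_eq_zero.mp hc).resolve_left hc0
  exact sub_eq_zero.mp this

lemma coeff_lin (c : Fin 4 → k) (i : Fin 4) :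
    coeff (Finsupp.single i 1) (∑ l, C (c l) * X l : MvPolynomial (Fin 4) k) = c i := by
  rw [coeff_sum, Finset.sum_eq_single i]
  · rw [coeff_C_mul, coeff_X, if_pos rfl, mul_one]
  · intro l _ hl
    rw [coeff_C_mul, coeff_X, if_neg, mul_zero]
    intro h
    exact hl (Finsupp.single_left_injective one_ne_zero h)
  · simp

/-- A matrix with vanishing upper left entry acting trivially is zero. -/
lemma P3der_inj (M : Fin 4 × Fin 4 → k) (h0 : M (0, 0) = 0)
    (h : ∀ V f, (P3der k M).D V le_top f = 0) : M = 0 := by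
  have hr := P3der_rel k M h
  have e0 : ∀ i, M (i, 0) = 0 := by
    intro i
    by_cases hi : i = 0
    · subst hi; exact h0
    · have h1 := hr 1
      rw [matDer_X, matDer_X] at h1
      have h2 := congrArg (coeff (Finsupp.single 1 1 + Finsupp.single i 1)) h1
      rw [coeff_X_mul, coeff_lin, coeff_X_mul', if_neg] at h2
      · exact h2.symm
      · rw [Finsupp.mem_support_iff, not_not, Finsupp.add_apply, Finsupp.single_apply,
          Finsupp.single_apply, if_neg (by decide), if_neg hi, add_zero]
  have e1 : matDer k M (X 0) = 0 := by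
    rw [matDer_X]
    exact Finset.sum_eq_zero fun i _ => by rw [e0, C_0, zero_mul]
  funext ⟨i, j⟩
  have h1 := hr j
  rw [e1, mul_zero] at h1
  have h2 := (mul_eq_zero.mp h1).resolve_left (X_ne_zero 0)
  rw [matDer_X] at h2
  have h3 := congrArg (coeff (Finsupp.single i 1)) h2
  rw [coeff_lin, coeff_zero] at h3
  exact h3

end Mat

end Pool.Agent.Helper44
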