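import Pool.Agent.Helper44.QuadLine0

open MvPolynomial AlgebraicGeometry CategoryTheory HomogeneousLocalization TopologicalSpace Opposite

universe u
noncomputable section

namespace Pool.Agent.Helper44

variable (k : Type u) [Field k] [CharP k 2]

/-- The sections killed by all the derivations `x_i ∂/∂x_4`. -/
def Zv (V : (Proj (quadGrading k)).Opens) : Set Γ(Proj (quadGrading k), V) :=
  {f | ∀ i, (vf k i).D V le_top f = 0}

lemma Zv_res (V W : (Proj (quadGrading k)).Opens) (h : W ≤ V) (f : Γ(Proj (quadGrading k), V))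
    (hf : f ∈ Zv k V) : rs h f ∈ Zv k W := by
  intro i
  have := (vf k i).res V W le_top h f
  rw [hf i] at this
  rw [← this]
  simp [rs]

/-- The line bundle `O(1)` on the quadric, realized inside the tangent sheaf. -/
def lineL : (Proj (quadGrading k)).Modules := derSheaf _ (Zv k) (Zv_res k)

lemma base_sub_Zv (V : (Proj (quadGrading k)).Opens) :
    baseSections (projStr (quadGrading k)) V ⊆ Zv k V := by
  intro f hf i
  exact (vf k i).kills V le_top f hf

/-- The inclusion of `lineL` in the tangent sheaf. -/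
def lineIncl : lineL k ⟶ tangentSheaf (projStr (quadGrading k)) :=
  derIncl (projStr (quadGrading k)) (Zv_res k) (base_sub_Zv k)

/-- The sections `v_i` of `lineL`. -/
def vL' (i : Fin 5) : SheafDer (Proj (quadGrading k)) (Zv k) ⊤ :=
  (vf k i).strengthen (fun _ _ _ hf => hf i)

/-- The sections `v_i` of `lineL`. -/
def vL (i : Fin 5) : Γ(lineL k, ⊤) := vL' k i

lemma fr_mem_Zv (j l : Fin 5) (hj : j ≠ 4) (hl : l ≠ 4) {V : (Proj (quadGrading k)).Opens}
    (hV : V ≤ Proj.basicOpen (quadGrading k) (xq k j)) : rs hV (fr k j l) ∈ Zv k V := by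
  intro i
  rw [vf_fr k i j l hj, if_neg hl]

lemma vL'_D (i : Fin 5) (V : (Proj (quadGrading k)).Opens) (f : Γ(Proj (quadGrading k), V)) :
    (vL' k i).D V le_top f = (vf k i).D V le_top f := rfl

lemma kConst_mem {k : Type u} [Field k] {X : Scheme.{u}} (s : X ⟶ Spec (.of k)) (V : X.Opens)
    (c : k) : kConst s V c ∈ baseSections s V :=
  ⟨⊤, le_top, (Scheme.ΓSpecIso (.of k)).inv.hom c, rfl⟩

lemma gen_aux (j : Fin 5) (hj : j ≠ 4) {V : (Proj (quadGrading k)).Opens}
    (hV : V ≤ Proj.basicOpen (quadGrading k) (xq k j))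
    (E : SheafDer (Proj (quadGrading k)) (Zv k) V)
    (hE : E.D V le_rfl (rs hV (fr k j 4)) = 0) : E = 0 := by
  refine SheafDer.eq_zero_of_affine (Proj.isAffineOpen_basicOpen _ _ (xq_mem k j) one_pos) hV E ?_
  intro f
  obtain ⟨p, rfl⟩ := evalFr_surjective k j f
  induction p using MvPolynomial.induction_on with
  | C c =>
    apply E.kills
    apply Zv_res
    apply base_sub_Zv
    rw [evalFr, eval₂Hom_C]
    exact kConst_mem _ _ _
  | add p q hp hq =>
    rw [map_add, rs, map_add, map_add]
    exact (congrArg₂ _ hp hq).trans (add_zero 0)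
  | mul_X p l hp =>
    have h1 : E.D V le_rfl (rs hV (fr k j l)) = 0 := by
      by_cases hl : l = 4
      · subst hl
        exact hE
      · exact E.kills _ _ _ (fr_mem_Zv k j l hj hl hV)
    have h2 : evalFr k j (X l) = fr k j l := eval₂Hom_X' _ _ _
    rw [map_mul, h2]
    have h3 : rs hV (evalFr k j p * fr k j l) = rs hV (evalFr k j p) * rs hV (fr k j l) :=
      map_mul _ _ _
    rw [h3, E.leibniz, h1, hp, mul_zero, mul_zero, add_zero]

lemma castSucc_ne_four (j : Fin 4) : j.castSucc ≠ 4 := (Fin.castSucc_lt_last j).ne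

/-- On opens contained in `D₊(x_i) ∩ D₊(x_j)`, `j ≠ 4`, the section `v_i` is a free generator. -/
lemma vL_generates (i j : Fin 5) (hj : j ≠ 4) {U : (Proj (quadGrading k)).Opens}
    (hi : U ≤ Proj.basicOpen (quadGrading k) (xq k i))
    (hj' : U ≤ Proj.basicOpen (quadGrading k) (xq k j)) :
    FreelyGenerates (lineL k) (rsM (lineL k) (le_top : U ≤ ⊤) (vL k i)) := by
  intro V h (t : SheafDer (Proj (quadGrading k)) (Zv k) V)
  have hiV : V ≤ Proj.basicOpen (quadGrading k) (xq k i) := h.trans hi
  have hjV : V ≤ Proj.basicOpen (quadGrading k) (xq k j) := h.trans hj'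
  have hval : ∀ r : Γ(Proj (quadGrading k), V), ((r • SheafDer.restrict (le_top : V ≤ ⊤) (vL' k i) :
      SheafDer (Proj (quadGrading k)) (Zv k) V)).D V le_rfl (rs hjV (fr k j 4)) =
      r * rs hjV (fr k j i) := by
    intro r
    rw [SheafDer.smul_D, SheafDer.restrict_D, vL'_D, vf_fr k i j 4 hj, if_pos rfl]
    congr 1
  refine ⟨t.D V le_rfl (rs hjV (fr k j 4)) * rs hiV (fr k i j), ?_, ?_⟩
  · change t = (t.D V le_rfl (rs hjV (fr k j 4)) * rs hiV (fr k i j)) •
      SheafDer.restrict (le_top : V ≤ ⊤) (vL' k i)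
    rw [← sub_eq_zero]
    apply gen_aux k j hj hjV
    rw [sub_eq_add_neg, SheafDer.add_D, SheafDer.neg_D, hval, mul_assoc, fr_unit, mul_one,
      add_neg_cancel]
  · intro r hr
    have hr' : t = r • SheafDer.restrict (le_top : V ≤ ⊤) (vL' k i) := hr
    rw [hr', hval, mul_assoc, mul_comm (rs hjV (fr k j i)), fr_unit, mul_one]

lemma nonvanishing_vL (i : Fin 5) :
    (Proj.basicOpen (quadGrading k) (xq k i) : Set (Proj (quadGrading k))) =
      nonvanishing (lineL k) (vL k i) := by
  apply Set.Subset.antisymm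
  · intro x hx
    obtain ⟨j, hj⟩ := not_mem_all k x
    refine ⟨Proj.basicOpen (quadGrading k) (xq k i) ⊓ Proj.basicOpen (quadGrading k) (xq k j.castSucc),
      ⟨hx, hj⟩, ?_⟩
    exact vL_generates k i j.castSucc (castSucc_ne_four j) inf_le_left inf_le_right
  · rintro x ⟨U, hxU, hU⟩
    obtain ⟨j, hj⟩ := not_mem_all k x
    have hjV : U ⊓ Proj.basicOpen (quadGrading k) (xq k j.castSucc) ≤
      Proj.basicOpen (quadGrading k) (xq k j.castSucc) := inf_le_right
    obtain ⟨r, hr, -⟩ := hU (U ⊓ Proj.basicOpen (quadGrading k) (xq k j.castSucc)) inf_le_left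
      (SheafDer.restrict le_top (vL' k j.castSucc) : SheafDer (Proj (quadGrading k)) (Zv k) _)
    have hr' : SheafDer.restrict le_top (vL' k j.castSucc) =
      r • SheafDer.restrict (le_top : U ⊓ Proj.basicOpen (quadGrading k) (xq k j.castSucc) ≤ ⊤)
        (vL' k i) := hr
    have h1 := congrArg (fun t => t.D (U ⊓ Proj.basicOpen (quadGrading k) (xq k j.castSucc)) le_rfl
      (rs hjV (fr k j.castSucc 4))) hr'
    rw [SheafDer.smul_D, SheafDer.restrict_D, vL'_D, SheafDer.restrict_D, vL'_D,
      vf_fr k i j.castSucc 4 (castSucc_ne_four j), vf_fr k j.castSucc j.castSucc 4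
      (castSucc_ne_four j), if_pos rfl, if_pos rfl, fr_self] at h1
    have h2 := congrArg (fun t => (t.1 ⟨x, hxU, hj⟩).val) h1
    simp only at h2
    rw [val_mul', fr, val_fracSec] at h2
    have h3 : ((rs hjV (1 : Γ(Proj (quadGrading k), _))).1 ⟨x, hxU, hj⟩).val = 1 := by
      rw [rs, map_one]
      exact val_one' _ _
    rw [h3] at h2
    have h4 : IsUnit (Localization.mk (xq k i) (⟨xq k j.castSucc, hj⟩ :
      x.asHomogeneousIdeal.toIdeal.primeCompl)) := IsUnit.of_mul_eq_one _ ((mul_comm _ _).trans h2.symm)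
    have h5 := x.isPrime
    rw [Localization.mk_eq_mk', IsLocalization.AtPrime.isUnit_mk'_iff (Localization.AtPrime _)
      x.asHomogeneousIdeal.toIdeal] at h4
    exact h4

lemma lineL_veryAmple : IsVeryAmple (projStr (quadGrading k)) (lineL k) := by
  refine ⟨4, vL k, fun i => Proj.basicOpen (quadGrading k) (xq k i), ?_, fun i => ⟨?_, ?_, ?_⟩⟩
  · rw [eq_top_iff, ← iSup_basicOpen k]
    exact iSup_le fun i => le_iSup (fun i : Fin 5 => Proj.basicOpen (quadGrading k) (xq k i)) _
  · exact Proj.isAffineOpen_basicOpen _ _ (xq_mem k i) one_pos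
  · exact nonvanishing_vL k i
  · refine ⟨fr k i, ?_, ?_⟩
    · intro j
      change SheafDer.restrict le_top (vL' k j) = fr k i j • SheafDer.restrict
        (le_top : Proj.basicOpen (quadGrading k) (xq k i) ≤ ⊤) (vL' k i)
      refine SheafDer.ext' fun V hV f => ?_
      rw [SheafDer.smul_D, SheafDer.restrict_D, SheafDer.restrict_D, vL'_D, vL'_D]
      exact vf_prop k i j hV f
    · rw [eq_top_iff]
      rintro f -
      obtain ⟨p, rfl⟩ := evalFr_surjective k i f
      induction p using MvPolynomial.induction_on with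
      | C c =>
        apply Subring.subset_closure
        left
        rw [evalFr, eval₂Hom_C]
        exact kConst_mem _ _ _
      | add p q hp hq =>
        rw [map_add]
        exact add_mem hp hq
      | mul_X p l hp =>
        rw [map_mul]
        refine mul_mem hp (Subring.subset_closure (Or.inr ⟨l, ?_⟩))
        exact (eval₂Hom_X' _ _ _).symm

lemma lineIncl_ne_zero : lineIncl k ≠ 0 := by
  intro h
  have h1 : ∀ (V : (Proj (quadGrading k)).Opens) (t : SheafDer (Proj (quadGrading k)) (Zv k) V),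
      (SheafDer.weaken (base_sub_Zv k) t : SheafDer _ (baseSections (projStr (quadGrading k))) V) = 0 := by
    intro V t
    exact congrArg (fun (φ : lineL k ⟶ tangentSheaf (projStr (quadGrading k))) =>
      toSD ((φ.app V).hom t)) h
  have h2 := congrArg (fun t => t.D (Proj.basicOpen (quadGrading k) (xq k 0)) le_top (fr k 0 4))
    (h1 ⊤ (vL' k 0))
  have h3 := vf_fr k 0 0 4 (by decide) (le_refl (Proj.basicOpen (quadGrading k) (xq k 0)))
  have h4 : rs (le_refl (Proj.basicOpen (quadGrading k) (xq k 0))) (fr k 0 4) = fr k 0 4 := by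
    simp [rs]
  have h5 : rs (le_refl (Proj.basicOpen (quadGrading k) (xq k 0))) (fr k 0 0) = 1 := by
    rw [fr_self]; simp [rs]
  rw [h4, h5, if_pos rfl] at h3
  have h6 : (vf k 0).D (Proj.basicOpen (quadGrading k) (xq k 0)) le_top (fr k 0 4) = 0 := h2
  rw [h3] at h6
  have h8 : (1 : Away (quadGrading k) (xq k 0)) = 0 := by
    apply (toSec_bijective k 0).1
    rw [map_one, map_zero, h6]
  have := away_isDomain k 0
  exact one_ne_zero (α := Away (quadGrading k) (xq k (Fin.castSucc 0))) h8

end Pool.Agent.Helper44
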