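import Pool.Agent.Helper44.Transport
import Pool.Agent.Helper44.MatDer
import Pool.Agent.Helper44.AlgDer
import Pool.Agent.Helper44.QuadLine

open MvPolynomial AlgebraicGeometry CategoryTheory HomogeneousLocalization TopologicalSpace Opposite

universe u
noncomputable section

namespace Pool.Agent.Helper44

section Chart

variable (k : Type u) [Field k]

lemma fromPoly_bijective (i : Fin 4) : Function.Bijective (fromPoly k i) := by
  have h : Function.LeftInverse (toPoly k i) (fromPoly k i) := toPoly_fromPoly k i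
  refine ⟨h.injective, fun z => ⟨toPoly k i z, ?_⟩⟩
  apply toPoly_injective
  rw [toPoly_fromPoly]

/-- Polynomials in three variables as sections over the chart `i`. -/
def ringEq (i : Fin 4) : MvPolynomial (Fin 3) k ≃+*
    Γ(Proj (quadGrading k), Proj.basicOpen (quadGrading k) (xq k i.castSucc)) :=
  RingEquiv.ofBijective ((toSec k i.castSucc).comp (fromPoly k i))
    ((toSec_bijective k i.castSucc).comp (fromPoly_bijective k i))

lemma ringEq_apply (i : Fin 4) (p : MvPolynomial (Fin 3) k) :
    ringEq k i p = toSec k i.castSucc (fromPoly k i p) := rfl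

lemma ringEq_C (i : Fin 4) (c : k) :
    ringEq k i (C c) = kConst (projStr (quadGrading k)) _ c := by
  rw [ringEq_apply, fromPoly_C, toSec_const]

lemma ringEq_X (i : Fin 4) (j : Fin 3) : ringEq k i (X j) = fr k i.castSucc (coordIdx i j) := by
  rw [ringEq_apply, fromPoly_X, toSec_fracq]

lemma ringEq_dehomVar (i : Fin 4) (j : Fin 5) : ringEq k i (dehomVar k i j) = fr k i.castSucc j := by
  rw [ringEq_apply, fromPoly_dehomVar, toSec_fracq]

/-- The derivation of the polynomial ring defined by a vector field, on the chart `i`. -/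
def chartDer (D : SheafDer (Proj (quadGrading k)) (baseSections (projStr (quadGrading k))) ⊤)
    (i : Fin 4) : Derivation k (MvPolynomial (Fin 3) k) (MvPolynomial (Fin 3) k) :=
  Derivation.mk'
    { toFun := fun p => (ringEq k i).symm (D.D _ le_top (ringEq k i p))
      map_add' := fun p q => by simp
      map_smul' := fun c p => by
        simp only [smul_eq_C_mul, map_mul, D.leibniz, RingHom.id_apply]
        rw [ringEq_C, D.kills _ _ _ (kConst_mem _ _ _), mul_zero, add_zero, ← ringEq_C, map_mul,
          RingEquiv.symm_apply_apply] }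
    (fun p q => by
      simp only [LinearMap.coe_mk, AddHom.coe_mk, map_mul, D.leibniz, map_add,
        RingEquiv.symm_apply_apply, smul_eq_mul])

lemma chartDer_apply
    (D : SheafDer (Proj (quadGrading k)) (baseSections (projStr (quadGrading k))) ⊤)
    (i : Fin 4) (p : MvPolynomial (Fin 3) k) :
    chartDer k D i p = (ringEq k i).symm (D.D _ le_top (ringEq k i p)) := rfl

lemma ringEq_chartDer
    (D : SheafDer (Proj (quadGrading k)) (baseSections (projStr (quadGrading k))) ⊤)
    (i : Fin 4) (p : MvPolynomial (Fin 3) k) :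
    ringEq k i (chartDer k D i p) = D.D _ le_top (ringEq k i p) := by
  rw [chartDer_apply, RingEquiv.apply_symm_apply]

/-- The intersection of the first two charts. -/
abbrev U01 : (Proj (quadGrading k)).Opens :=
  Proj.basicOpen (quadGrading k) (xq k (Fin.castSucc (0 : Fin 4))) ⊓
    Proj.basicOpen (quadGrading k) (xq k (Fin.castSucc (1 : Fin 4)))

/-- Restriction from the first chart to the intersection. -/
def rho0 : MvPolynomial (Fin 3) k →+* Γ(Proj (quadGrading k), U01 k) :=
  ((Proj (quadGrading k)).presheaf.map (homOfLE (inf_le_left : U01 k ≤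
    Proj.basicOpen (quadGrading k) (xq k (Fin.castSucc (0 : Fin 4))))).op).hom.comp
    (ringEq k 0 : MvPolynomial (Fin 3) k →+* _)

/-- Restriction from the second chart to the intersection. -/
def rho1 : MvPolynomial (Fin 3) k →+* Γ(Proj (quadGrading k), U01 k) :=
  ((Proj (quadGrading k)).presheaf.map (homOfLE (inf_le_right : U01 k ≤
    Proj.basicOpen (quadGrading k) (xq k (Fin.castSucc (1 : Fin 4))))).op).hom.comp
    (ringEq k 1 : MvPolynomial (Fin 3) k →+* _)

lemma rho0_apply (p : MvPolynomial (Fin 3) k) : rho0 k p = rs inf_le_left (ringEq k 0 p) := rfl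
lemma rho1_apply (p : MvPolynomial (Fin 3) k) : rho1 k p = rs inf_le_right (ringEq k 1 p) := rfl

lemma U01_nonempty : Nonempty (U01 k) := by
  obtain ⟨z, hz⟩ := inter_nonempty k 0 1
    (Proj.basicOpen (quadGrading k) (xq k (Fin.castSucc (0 : Fin 4)))) (by
      rw [chart_preimage]
      refine ⟨⟨⊥, Ideal.isPrime_bot⟩, ?_⟩
      change fracq k _ _ ∉ (⊥ : Ideal _)
      rw [Ideal.mem_bot]
      exact fracq_ne_zero k 0 _)
  refine ⟨⟨(chartι k 1) z, hz, ?_⟩⟩
  have : (chartι k 1) z ∈ (chartι k 1).opensRange := ⟨z, rfl⟩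
  rw [opensRange_chartι] at this
  exact this

lemma rs_injective {V W : (Proj (quadGrading k)).Opens} (h : W ≤ V) (hW : Nonempty W) :
    Function.Injective (rs h : Γ(Proj (quadGrading k), V) → Γ(Proj (quadGrading k), W)) := by
  have := quad_isIntegral k
  exact map_injective_of_isIntegral (Proj (quadGrading k)) (homOfLE h)

lemma rho0_injective : Function.Injective (rho0 k) := by
  intro p q h
  rw [rho0_apply, rho0_apply] at h
  exact (ringEq k 0).injective (rs_injective k inf_le_left (U01_nonempty k) h)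

lemma rho_C (c : k) : rho0 k (C c) = rho1 k (C c) := by
  rw [rho0_apply, rho1_apply, ringEq_C, ringEq_C]
  rfl

variable [CharP k 2]

lemma tau_eq : tau k = dehomVar k 0 1 := by
  have h2 : (2 : MvPolynomial (Fin 3) k) = 0 := by
    have := CharP.cast_eq_zero (MvPolynomial (Fin 3) k) 2
    exact_mod_cast this
  change (X 0 * X 1 + X 2 ^ 2 : MvPolynomial (Fin 3) k) = -(X 0 * X 1 + X 2 ^ 2)
  linear_combination (X 0 * X 1 + X 2 ^ 2 : MvPolynomial (Fin 3) k) * h2

lemma rho_X (j : Fin 3) : rho0 k (X j) = rho0 k (tau k) * rho1 k (X j) := by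
  rw [rho0_apply, rho0_apply, rho1_apply, ringEq_X, ringEq_X, tau_eq, ringEq_dehomVar]
  exact (fr_mul k 0 1 (coordIdx 0 j) inf_le_left inf_le_right).symm

theorem chartDer_eq_zero
    (D : SheafDer (Proj (quadGrading k)) (baseSections (projStr (quadGrading k))) ⊤)
    (hP : ∀ j, constantCoeff (chartDer k D 1 (X j)) = 0)
    (hc : ∀ j, constantCoeff (chartDer k D 0 (X j)) = 0)
    (hl : ∀ i j, (i, j) ≠ (0, 1) → coeff (Finsupp.single i 1) (chartDer k D 0 (X j)) = 0)
    (j : Fin 3) : chartDer k D 0 (X j) = 0 := by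
  refine der_eq_zero (rho0 k) (rho1 k) (rho_C k) (rho_X k) (rho0_injective k) (chartDer k D 0)
    (chartDer k D 1) (fun f => D.D (U01 k) le_top f) (fun x y => D.leibniz _ _ x y)
    (fun p => ?_) (fun p => ?_) hP hc hl j
  · rw [rho0_apply, rho0_apply, ringEq_chartDer]
    exact (D.res _ _ le_top inf_le_left _).symm
  · rw [rho1_apply, rho1_apply, ringEq_chartDer]
    exact (D.res _ _ le_top inf_le_right _).symm

lemma sheafDer_eq_zero
    (D : SheafDer (Proj (quadGrading k)) (baseSections (projStr (quadGrading k))) ⊤)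
    (h : ∀ j, chartDer k D 0 (X j) = 0) (V : (Proj (quadGrading k)).Opens)
    (f : Γ(Proj (quadGrading k), V)) : D.D V le_top f = 0 := by
  by_cases hV : V = ⊥
  · subst hV
    exact Subsingleton.elim _ _
  have h0 : chartDer k D 0 = 0 := by
    apply MvPolynomial.derivation_ext
    intro j
    rw [h j]
    rfl
  have hirr := quad_irreducible k
  let U0 := Proj.basicOpen (quadGrading k) (xq k (Fin.castSucc (0 : Fin 4)))
  have hne : Nonempty ((V ⊓ U0 : (Proj (quadGrading k)).Opens)) := by
    obtain ⟨⟨z, hz1, hz2⟩⟩ := U01_nonempty k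
    obtain ⟨y, hy1, hy2⟩ := nonempty_preirreducible_inter (Opens.isOpen V) (Opens.isOpen U0)
      ((Opens.ne_bot_iff_nonempty V).mp hV) ⟨z, hz1⟩
    exact ⟨⟨y, hy1, hy2⟩⟩
  apply rs_injective k (inf_le_left : V ⊓ U0 ≤ V) hne
  have h1 : SheafDer.restrict (le_top : V ⊓ U0 ≤ ⊤) D = 0 := by
    refine SheafDer.eq_zero_of_affine (Proj.isAffineOpen_basicOpen _ _ (xq_mem k _) one_pos)
      inf_le_right _ fun g => ?_
    obtain ⟨p, rfl⟩ := (ringEq k 0).surjective g
    have h2 := ringEq_chartDer k D 0 p
    rw [h0, Derivation.zero_apply, map_zero] at h2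
    rw [SheafDer.restrict_D, ← D.res _ _ le_top inf_le_right, ← h2]
    simp [rs]
  have h3 := congrArg (fun t => t.D (V ⊓ U0) le_rfl (rs inf_le_left f)) h1
  rw [D.res _ _ le_top inf_le_left]
  refine (h3 : _ = _).trans ?_
  simp [rs]

end Chart

end Pool.Agent.Helper44
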