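import Pool.Agent.Helper44.DerSheaf

open AlgebraicGeometry CategoryTheory TopologicalSpace Opposite

universe u
noncomputable section

namespace Pool.Agent.Helper44

lemma rs_eq_of_cover {X : Scheme.{u}} {V : X.Opens} (a b : Γ(X, V))
    (h : ∀ x ∈ V, ∃ (B : X.Opens) (hB : B ≤ V), x ∈ B ∧ rs hB a = rs hB b) : a = b := by
  choose B hB hx he using h
  refine X.sheaf.eq_of_locally_eq' (fun x : V => B x.1 x.2) V (fun x => homOfLE (hB x.1 x.2)) ?_ a b ?_
  · intro x hxV
    exact Opens.mem_iSup.mpr ⟨⟨x, hxV⟩, hx x hxV⟩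
  · intro x
    exact he x.1 x.2

/-- A derivation on `V ≤ U`, `U` affine, which kills the restrictions of all sections
over `U`, is zero. -/
lemma SheafDer.eq_zero_of_affine {X : Scheme.{u}} {Z : ∀ V : X.Opens, Set Γ(X, V)}
    {U V : X.Opens} (hU : IsAffineOpen U) (hVU : V ≤ U) (D : SheafDer X Z V)
    (h : ∀ f : Γ(X, U), D.D V le_rfl (rs hVU f) = 0) : D = 0 := by
  refine SheafDer.ext' fun W hW f => ?_
  refine rs_eq_of_cover _ _ fun x hx => ?_
  obtain ⟨g, hg1, hg2⟩ := hU.exists_basicOpen_le ⟨x, hx⟩ (hVU (hW hx))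
  refine ⟨X.basicOpen g, hg1, hg2, ?_⟩
  have hBU : X.basicOpen g ≤ U := X.basicOpen_le g
  have hk : ∀ c : Γ(X, U), D.D (X.basicOpen g) (hg1.trans hW) (rs hBU c) = 0 := by
    intro c
    have h1 := D.res V (X.basicOpen g) le_rfl (hg1.trans hW) (rs hVU c)
    rw [h, rs_rs] at h1
    rw [← h1]
    simp [rs]
  have hloc := hU.isLocalization_basicOpen g
  obtain ⟨n, a, ha⟩ := IsLocalization.Away.surj g (rs hg1 f)
  have ha' : rs hg1 f * (rs hBU g) ^ n = rs hBU a := ha
  have hu : IsUnit (rs hBU g) := IsLocalization.Away.algebraMap_isUnit (S := Γ(X, X.basicOpen g)) g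
  have h2 := congrArg (D.D (X.basicOpen g) (hg1.trans hW)) ha'
  have h3 : (rs hBU g) ^ n = rs hBU (g ^ n) := by simp [rs]
  rw [hk, h3, D.leibniz, hk, mul_zero, zero_add, ← h3] at h2
  have h4 : D.D (X.basicOpen g) (hg1.trans hW) (rs hg1 f) = 0 :=
    (hu.pow n).mul_left_cancel (h2.trans (mul_zero _).symm)
  rw [D.res, h4]
  simp [rs]

end Pool.Agent.Helper44
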