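import Mathlib

/-!
Derivations of a presheaf of rings on a preorder.
-/

open CategoryTheory Opposite

universe u

noncomputable section

namespace Pool.Agent.Helper44

variable {P : Type u} [Preorder P]

/-- Restriction maps of a presheaf of rings. -/
abbrev rsF (F : Pᵒᵖ ⥤ CommRingCat.{u}) {V W : P} (h : W ≤ V) (f : F.obj (op V)) : F.obj (op W) :=
  (F.map (homOfLE h).op).hom f

lemma rsF_rsF (F : Pᵒᵖ ⥤ CommRingCat.{u}) {V W T : P} (h : W ≤ V) (h' : T ≤ W)
    (f : F.obj (op V)) : rsF F h' (rsF F h f) = rsF F (h'.trans h) f := by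
  simp only [rsF]
  rw [← CommRingCat.comp_apply, ← F.map_comp]
  rfl

/-- For a presheaf of rings `F` and sets `Z V` of elements of the rings `F V`: the derivations
over `U` killing `Z`, that is the families of additive maps `D V : F V → F V`, for `V ≤ U`, which
satisfy the Leibniz rule, commute with restriction, and vanish on the sets `Z V`. -/
@[ext]
structure FamDer (F : Pᵒᵖ ⥤ CommRingCat.{u}) (Z : ∀ V : P, Set (F.obj (op V))) (U : P) where
  D : ∀ V : P, V ≤ U → (F.obj (op V) →+ F.obj (op V))
  leibniz : ∀ (V : P) (hV : V ≤ U) (f g : F.obj (op V)),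
    D V hV (f * g) = f * D V hV g + g * D V hV f
  res : ∀ (V W : P) (hV : V ≤ U) (h : W ≤ V) (f : F.obj (op V)),
    rsF F h (D V hV f) = D W (h.trans hV) (rsF F h f)
  kills : ∀ (V : P) (hV : V ≤ U), ∀ f ∈ Z V, D V hV f = 0

namespace FamDer

variable {F : Pᵒᵖ ⥤ CommRingCat.{u}} {Z : ∀ V : P, Set (F.obj (op V))} {U : P}

lemma ext' {a b : FamDer F Z U} (h : ∀ V hV f, a.D V hV f = b.D V hV f) : a = b := by
  ext V hV f
  exact h V hV f

instance : Zero (FamDer F Z U) where
  zero := ⟨fun _ _ => 0, by simp, by simp, by simp⟩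

instance : Add (FamDer F Z U) where
  add a b := ⟨fun V hV => a.D V hV + b.D V hV,
    fun V hV f g => by simp only [AddMonoidHom.add_apply, a.leibniz, b.leibniz]; ring,
    fun V W hV h f => by
      have h1 := a.res V W hV h f
      have h2 := b.res V W hV h f
      simp only [rsF, AddMonoidHom.add_apply, map_add] at *
      rw [h1, h2],
    fun V hV f hf => by simp [a.kills V hV f hf, b.kills V hV f hf]⟩

instance : Neg (FamDer F Z U) where
  neg a := ⟨fun V hV => - a.D V hV,
    fun V hV f g => by simp only [AddMonoidHom.neg_apply, a.leibniz]; ring,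
    fun V W hV h f => by
      have h1 := a.res V W hV h f
      simp only [rsF, AddMonoidHom.neg_apply, map_neg] at *
      rw [h1],
    fun V hV f hf => by simp [a.kills V hV f hf]⟩

lemma zero_D (V : P) (hV : V ≤ U) (f : F.obj (op V)) :
    (0 : FamDer F Z U).D V hV f = 0 := rfl
lemma add_D (a b : FamDer F Z U) (V : P) (hV : V ≤ U) (f : F.obj (op V)) :
    (a + b).D V hV f = a.D V hV f + b.D V hV f := rfl
lemma neg_D (a : FamDer F Z U) (V : P) (hV : V ≤ U) (f : F.obj (op V)) :
    (-a).D V hV f = - a.D V hV f := rfl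

instance : AddCommGroup (FamDer F Z U) where
  add_assoc a b c := ext' fun V hV f => by simp only [add_D, add_assoc]
  zero_add a := ext' fun V hV f => by simp only [add_D, zero_D, zero_add]
  add_zero a := ext' fun V hV f => by simp only [add_D, zero_D, add_zero]
  add_comm a b := ext' fun V hV f => by simp only [add_D, add_comm]
  neg_add_cancel a := ext' fun V hV f => by
    simp only [add_D, neg_D, zero_D, neg_add_cancel]
  nsmul := nsmulRec
  zsmul := zsmulRec

instance : SMul (F.obj (op U)) (FamDer F Z U) where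
  smul x a := ⟨fun V hV => (AddMonoidHom.mulLeft (rsF F hV x)).comp (a.D V hV),
    fun V hV f g => by
      simp only [AddMonoidHom.comp_apply, AddMonoidHom.coe_mulLeft, a.leibniz]; ring,
    fun V W hV h f => by
      have h1 := a.res V W hV h f
      have h2 := rsF_rsF F hV h x
      simp only [rsF, AddMonoidHom.comp_apply, AddMonoidHom.coe_mulLeft, map_mul] at *
      rw [h1, h2],
    fun V hV f hf => by simp [a.kills V hV f hf]⟩

lemma smul_D (x : F.obj (op U)) (a : FamDer F Z U) (V : P) (hV : V ≤ U) (f : F.obj (op V)) :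
    (x • a).D V hV f = rsF F hV x * a.D V hV f := rfl

/-- The `F U`-module structure on the derivations over `U`: `(x D)(f) = x|_V D(f)`. -/
instance instModule : Module (F.obj (op U)) (FamDer F Z U) where
  one_smul a := ext' fun V _ f => by simp only [smul_D, rsF, map_one, one_mul]
  mul_smul x y a := ext' fun V _ f => by simp only [smul_D, rsF, map_mul, mul_assoc]
  smul_zero x := ext' fun V _ f => by simp only [smul_D, zero_D, mul_zero]
  smul_add x a b := ext' fun V _ f => by simp only [smul_D, add_D, mul_add]
  add_smul x y a := ext' fun V _ f => by simp only [smul_D, add_D, rsF, map_add, add_mul]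
  zero_smul a := ext' fun V _ f => by simp only [smul_D, zero_D, rsF, map_zero, zero_mul]

variable (F Z)

/-- Restriction of derivations from `U` to `U' ≤ U`. -/
def restrictFun {U U' : P} (h : U' ≤ U) (a : FamDer F Z U) : FamDer F Z U' where
  D V hV := a.D V (hV.trans h)
  leibniz V _ := a.leibniz V _
  res V W _ := a.res V W _
  kills V _ := a.kills V _

/-- Restriction of derivations from `U` to `U' ≤ U`, as a homomorphism of groups. -/
def restrict {U U' : P} (h : U' ≤ U) : FamDer F Z U →+ FamDer F Z U' where
  toFun := restrictFun F Z h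
  map_zero' := rfl
  map_add' _ _ := rfl

/-- Restriction is semilinear. -/
def SMulCompat : Prop :=
  ∀ (U V : Pᵒᵖ) (i : U ⟶ V) (x : F.obj (op U.unop)) (a : FamDer F Z U.unop),
    restrict F Z (leOfHom i.unop) (x • a) =
      rsF F (leOfHom i.unop) x • restrict F Z (leOfHom i.unop) a

lemma smulCompat : SMulCompat F Z := by
  intro U U' i x a
  refine ext' fun V hV f => ?_
  rw [smul_D, rsF_rsF]
  rfl

end FamDer

/-- The presheaf of derivations killing `Z`. -/
def famFunctor (F : Pᵒᵖ ⥤ CommRingCat.{u}) (Z : ∀ V : P, Set (F.obj (op V))) :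
    Pᵒᵖ ⥤ AddCommGrpCat.{u} where
  obj U := AddCommGrpCat.of (FamDer F Z U.unop)
  map i := AddCommGrpCat.ofHom (FamDer.restrict F Z (leOfHom i.unop))
  map_id _ := rfl
  map_comp _ _ := rfl

end Pool.Agent.Helper44
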