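import Mathlib

noncomputable section

namespace Pool.Agent.Helper44

variable {A : Type*} [CommRing A] (D : Derivation ℤ A A) (S : Submonoid A)

/-- The ring homomorphism `a ↦ a + D a ε` into the dual numbers over the localization. -/
def dualHom : A →+* TrivSqZeroExt (Localization S) (Localization S) where
  toFun a := TrivSqZeroExt.inl (algebraMap A (Localization S) a) +
    TrivSqZeroExt.inr (algebraMap A (Localization S) (D a))
  map_one' := by
    ext
    · simp
    · simp only [TrivSqZeroExt.snd_add, TrivSqZeroExt.snd_inl, TrivSqZeroExt.snd_inr,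
        TrivSqZeroExt.snd_one, zero_add, Derivation.map_one_eq_zero, map_zero]
  map_zero' := by ext <;> simp
  map_add' a b := by
    ext
    · simp
    · simp only [TrivSqZeroExt.snd_add, TrivSqZeroExt.snd_inl, TrivSqZeroExt.snd_inr, zero_add,
        map_add]
  map_mul' a b := by
    ext
    · simp
    · simp only [TrivSqZeroExt.snd_add, TrivSqZeroExt.snd_inl, TrivSqZeroExt.snd_inr, zero_add,
        TrivSqZeroExt.snd_mul, TrivSqZeroExt.fst_add, TrivSqZeroExt.fst_inl, TrivSqZeroExt.fst_inr,
        add_zero, Derivation.leibniz, map_add, smul_eq_mul, map_mul, MulOpposite.smul_eq_mul_unop,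
        MulOpposite.unop_op]
      ring

@[simp] lemma fst_dualHom (a : A) : (dualHom D S a).fst = algebraMap A (Localization S) a := by
  simp [dualHom]

@[simp] lemma snd_dualHom (a : A) : (dualHom D S a).snd = algebraMap A (Localization S) (D a) := by
  simp only [dualHom, RingHom.coe_mk, MonoidHom.coe_mk, OneHom.coe_mk, TrivSqZeroExt.snd_add,
    TrivSqZeroExt.snd_inl, TrivSqZeroExt.snd_inr, zero_add]

lemma isUnit_dualHom (s : S) : IsUnit (dualHom D S s) := by
  rw [TrivSqZeroExt.isUnit_iff_isUnit_fst, fst_dualHom]
  exact IsLocalization.map_units _ s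

/-- The lift of `dualHom` to the localization. -/
def dualLift : Localization S →+* TrivSqZeroExt (Localization S) (Localization S) :=
  IsLocalization.lift (M := S) (isUnit_dualHom D S)

@[simp] lemma dualLift_algebraMap (a : A) : dualLift D S (algebraMap A _ a) = dualHom D S a :=
  IsLocalization.lift_eq _ _

@[simp] lemma fst_dualLift (b : Localization S) : (dualLift D S b).fst = b := by
  have : ((TrivSqZeroExt.fstHom (Localization S) (Localization S) (Localization S)).toRingHom.comp
      (dualLift D S)) = RingHom.id _ := by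
    apply IsLocalization.ringHom_ext S
    ext a
    simp
  exact congrArg (fun f => f b) this

/-- The extension of a derivation to a localization. -/
def locDer (b : Localization S) : Localization S := (dualLift D S b).snd

lemma locDer_add (a b : Localization S) : locDer D S (a + b) = locDer D S a + locDer D S b := by
  simp [locDer]

lemma locDer_zero : locDer D S 0 = 0 := by
  simp [locDer]

lemma locDer_mul (a b : Localization S) :
    locDer D S (a * b) = a * locDer D S b + b * locDer D S a := by
  simp [locDer, mul_comm]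

lemma locDer_algebraMap (a : A) : locDer D S (algebraMap A _ a) = algebraMap A _ (D a) := by
  simp [locDer]

lemma locDer_mk (a : A) (s : S) :
    locDer D S (Localization.mk a s) = Localization.mk (s * D a - a * D s) (s ^ 2) := by
  have h1 : Localization.mk a s * algebraMap A _ (s : A) = algebraMap A _ a := by
    rw [Localization.mk_eq_mk', IsLocalization.mk'_spec]
  have h2 := congrArg (locDer D S) h1
  rw [locDer_mul, locDer_algebraMap, locDer_algebraMap] at h2
  have hu : IsUnit (algebraMap A (Localization S) (s : A)) := IsLocalization.map_units _ s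
  have h3 : Localization.mk (s * D a - a * D s) (s ^ 2) * algebraMap A _ ((s : A) ^ 2) =
      algebraMap A (Localization S) (s * D a - a * D s) := by
    rw [Localization.mk_eq_mk']
    exact IsLocalization.mk'_spec (Localization S) _ (s ^ 2)
  have hu2 : IsUnit (algebraMap A (Localization S) ((s : A) ^ 2)) := by
    rw [map_pow]; exact hu.pow 2
  apply hu2.mul_right_cancel
  rw [h3]
  have h4 : Localization.mk a s * algebraMap A (Localization S) (s : A) *
      algebraMap A (Localization S) (D s) = algebraMap A _ a * algebraMap A _ (D s) := by rw [h1]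
  simp only [map_sub, map_mul, map_pow]
  linear_combination (algebraMap A (Localization S) (s : A)) * h2 - h4


section Homogeneous

open HomogeneousLocalization

variable {σ : Type*} [SetLike σ A] [AddSubgroupClass σ A] {𝒜 : ℕ → σ} [GradedRing 𝒜]
variable {S}

/-- A derivation of degree zero applied to a homogeneous fraction (on representatives). -/
def numDenDer (hD : ∀ i, ∀ a ∈ 𝒜 i, D a ∈ 𝒜 i) (c : NumDenSameDeg 𝒜 S) : NumDenSameDeg 𝒜 S where
  deg := c.deg + c.deg
  num := ⟨c.den * D c.num - c.num * D c.den,
    sub_mem (SetLike.mul_mem_graded c.den.2 (hD _ _ c.num.2))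
      (SetLike.mul_mem_graded c.num.2 (hD _ _ c.den.2))⟩
  den := ⟨c.den * c.den, SetLike.mul_mem_graded c.den.2 c.den.2⟩
  den_mem := S.mul_mem c.den_mem c.den_mem

lemma embedding_numDenDer (hD : ∀ i, ∀ a ∈ 𝒜 i, D a ∈ 𝒜 i) (c : NumDenSameDeg 𝒜 S) :
    (numDenDer D hD c).embedding = locDer D S c.embedding := by
  simp only [NumDenSameDeg.embedding]
  rw [locDer_mk]
  congr 1
  ext
  simp [numDenDer, pow_two]

/-- The extension of a derivation of degree zero to a homogeneous localization. -/
def homDer (hD : ∀ i, ∀ a ∈ 𝒜 i, D a ∈ 𝒜 i) :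
    HomogeneousLocalization 𝒜 S → HomogeneousLocalization 𝒜 S :=
  Quotient.map' (numDenDer D hD) fun a b h => by
    change (numDenDer D hD a).embedding = (numDenDer D hD b).embedding
    rw [embedding_numDenDer, embedding_numDenDer]
    exact congrArg _ h

lemma homDer_mk (hD : ∀ i, ∀ a ∈ 𝒜 i, D a ∈ 𝒜 i) (c : NumDenSameDeg 𝒜 S) :
    homDer D hD (mk c) = mk (numDenDer D hD c) := rfl

lemma val_homDer (hD : ∀ i, ∀ a ∈ 𝒜 i, D a ∈ 𝒜 i) (x : HomogeneousLocalization 𝒜 S) :
    (homDer D hD x).val = locDer D S x.val := by
  obtain ⟨c, rfl⟩ := mk_surjective x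
  exact embedding_numDenDer D hD c

lemma homDer_zero (hD : ∀ i, ∀ a ∈ 𝒜 i, D a ∈ 𝒜 i) :
    homDer D hD (0 : HomogeneousLocalization 𝒜 S) = 0 := by
  apply val_injective
  rw [val_homDer, val_zero, locDer_zero]

lemma homDer_add (hD : ∀ i, ∀ a ∈ 𝒜 i, D a ∈ 𝒜 i) (x y : HomogeneousLocalization 𝒜 S) :
    homDer D hD (x + y) = homDer D hD x + homDer D hD y := by
  apply val_injective
  rw [val_add, val_homDer, val_homDer, val_homDer, val_add, locDer_add]

lemma homDer_mul (hD : ∀ i, ∀ a ∈ 𝒜 i, D a ∈ 𝒜 i) (x y : HomogeneousLocalization 𝒜 S) :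
    homDer D hD (x * y) = x * homDer D hD y + y * homDer D hD x := by
  apply val_injective
  rw [val_add, val_mul, val_mul, val_homDer, val_homDer, val_homDer, val_mul, locDer_mul]

end Homogeneous

end Pool.Agent.Helper44
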