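import Pool.Agent.Helper44.ChartDer

open MvPolynomial AlgebraicGeometry CategoryTheory HomogeneousLocalization TopologicalSpace Opposite

universe u
noncomputable section

namespace Pool.Agent.Helper44

attribute [local instance] MvPolynomial.gradedAlgebra

variable (k : Type u) [Field k]

section

variable (e : Proj (quadGrading k) ≅ Proj (homogeneousSubmodule (Fin 4) k))
  (he : e.inv ≫ projStr (quadGrading k) = projStr (homogeneousSubmodule (Fin 4) k))

/-- The vector field on the quadric corresponding to a matrix. -/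
def quadMat (M : Fin 4 × Fin 4 → k) :
    SheafDer (Proj (quadGrading k)) (baseSections (projStr (quadGrading k))) ⊤ :=
  SheafDer.transport (projStr (quadGrading k)) (projStr (homogeneousSubmodule (Fin 4) k)) e he
    (P3der k M)

lemma quadMat_D (M : Fin 4 × Fin 4 → k) (V : (Proj (quadGrading k)).Opens)
    (f : Γ(Proj (quadGrading k), V)) :
    (quadMat k e he M).D V le_top f =
      (isoRing e V).symm ((P3der k M).D (e.inv ⁻¹ᵁ V) le_top (isoRing e V f)) := rfl

include he in
lemma isoRing_kConst (V : (Proj (quadGrading k)).Opens) (c : k) :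
    isoRing e V (kConst (projStr (quadGrading k)) V c) = kConst (projStr _) _ c := by
  have h1 : kConst (projStr (quadGrading k)) V c = rs (le_top : V ≤ ⊤)
      ((projStr (quadGrading k)).appTop.hom ((Scheme.ΓSpecIso (.of k)).inv.hom c)) := rfl
  have h2 : kConst (projStr (homogeneousSubmodule (Fin 4) k)) (e.inv ⁻¹ᵁ V) c =
      rs (le_top : e.inv ⁻¹ᵁ V ≤ ⊤) ((projStr (homogeneousSubmodule (Fin 4) k)).appTop.hom
        ((Scheme.ΓSpecIso (.of k)).inv.hom c)) := rfl
  rw [h1, h2, ← isoRing_rs, ← he, Scheme.Hom.comp_appTop]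
  rfl

lemma quadMat_add (M M' : Fin 4 × Fin 4 → k) (V : (Proj (quadGrading k)).Opens)
    (f : Γ(Proj (quadGrading k), V)) :
    (quadMat k e he (M + M')).D V le_top f = (quadMat k e he M).D V le_top f +
      (quadMat k e he M').D V le_top f := by
  rw [quadMat_D, quadMat_D, quadMat_D, P3der_add, map_add]

lemma quadMat_smul (c : k) (M : Fin 4 × Fin 4 → k) (V : (Proj (quadGrading k)).Opens)
    (f : Γ(Proj (quadGrading k), V)) :
    (quadMat k e he (c • M)).D V le_top f = kConst (projStr (quadGrading k)) V c *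
      (quadMat k e he M).D V le_top f := by
  rw [quadMat_D, quadMat_D, P3der_smul, map_mul]
  congr 1
  rw [RingEquiv.symm_apply_eq, isoRing_kConst k e he]

/-- The values of the vector fields on the coordinates of the charts, as linear functions of the
matrix. -/
def valLin (i : Fin 4) (j : Fin 3) : (Fin 4 × Fin 4 → k) →ₗ[k] MvPolynomial (Fin 3) k where
  toFun M := chartDer k (quadMat k e he M) i (X j)
  map_add' M M' := by
    rw [chartDer_apply, chartDer_apply, chartDer_apply, quadMat_add, map_add]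
  map_smul' c M := by
    rw [chartDer_apply, chartDer_apply, quadMat_smul, map_mul, ← ringEq_C,
      RingEquiv.symm_apply_apply, smul_eq_C_mul]
    rfl

lemma quadMat_inj (M : Fin 4 × Fin 4 → k) (h0 : M (0, 0) = 0)
    (h : ∀ V f, (quadMat k e he M).D V le_top f = 0) : M = 0 := by
  apply P3der_inj k M h0
  intro V f
  have hV : e.inv ⁻¹ᵁ (e.hom ⁻¹ᵁ V) = V := by
    rw [← Scheme.Hom.comp_preimage, e.inv_hom_id]
    rfl
  have h1 := h (e.hom ⁻¹ᵁ V) ((isoRing e _).symm (rs hV.le f))
  rw [quadMat_D, RingEquiv.apply_symm_apply, ← map_zero (isoRing e _).symm,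
    (isoRing e _).symm.injective.eq_iff] at h1
  have h2 := (P3der k M).res _ V le_top hV.ge (rs hV.le f)
  rw [h1, rs_rs] at h2
  have h3 : rs (hV.ge.trans hV.le) f = f := by
    simp [rs]
  rw [h3] at h2
  rw [← h2]
  simp [rs]

/-- The index set of the linear conditions. -/
abbrev CondIdx : Type := Unit ⊕ Fin 3 ⊕ Fin 3 ⊕ {p : Fin 3 × Fin 3 // p ≠ (0, 1)}

/-- The linear conditions. -/
def condLin : (Fin 4 × Fin 4 → k) →ₗ[k] (CondIdx → k) :=
  LinearMap.pi fun c => match c with
    | Sum.inl _ => LinearMap.proj (0, 0)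
    | Sum.inr (Sum.inl j) => (lcoeff k 0).comp (valLin k e he 1 j)
    | Sum.inr (Sum.inr (Sum.inl j)) => (lcoeff k 0).comp (valLin k e he 0 j)
    | Sum.inr (Sum.inr (Sum.inr p)) =>
      (lcoeff k (Finsupp.single p.1.1 1)).comp (valLin k e he 0 p.1.2)

lemma exists_mat : ∃ M : Fin 4 × Fin 4 → k, M ≠ 0 ∧ condLin k e he M = 0 := by
  have h : LinearMap.ker (condLin k e he) ≠ ⊥ := by
    apply LinearMap.ker_ne_bot_of_finrank_lt
    rw [Module.finrank_fintype_fun_eq_card, Module.finrank_fintype_fun_eq_card]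
    decide
  obtain ⟨M, hM, hM0⟩ := (Submodule.ne_bot_iff _).mp h
  exact ⟨M, hM0, hM⟩

include e he in
theorem not_iso [CharP k 2] : False := by
  obtain ⟨M, hM0, hM⟩ := exists_mat k e he
  apply hM0
  apply quadMat_inj k e he M
  · exact congrFun hM (Sum.inl ())
  · apply sheafDer_eq_zero
    apply chartDer_eq_zero
    · intro j
      exact congrFun hM (Sum.inr (Sum.inl j))
    · intro j
      exact congrFun hM (Sum.inr (Sum.inr (Sum.inl j)))
    · intro i j hij
      exact congrFun hM (Sum.inr (Sum.inr (Sum.inr ⟨(i, j), hij⟩)))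

end

end Pool.Agent.Helper44
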