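import Mathlib

open MvPolynomial AlgebraicGeometry CategoryTheory TopologicalSpace

universe u
noncomputable section

namespace Pool.Agent.Helper44

attribute [local instance] MvPolynomial.gradedAlgebra

/-- The structure morphism of `Proj 𝒜` over the ground field. -/
def projStr {k : Type u} [Field k] {A : Type u} [CommRing A] [Algebra k A]
    (𝒜 : ℕ → Submodule k A) [GradedAlgebra 𝒜] : Proj 𝒜 ⟶ Spec (.of k) :=
  Proj.toSpecZero 𝒜 ≫ Spec.map (CommRingCat.ofHom (algebraMap k (𝒜 0)))

/-- Projective space of dimension `n` over the field `k`, as `Proj k[x_0, …, x_n]`. -/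
def projSpace (n : ℕ) (k : Type u) [Field k] : Scheme.{u} :=
  Proj (homogeneousSubmodule (Fin (n + 1)) k)

/-- The structure morphism of projective space over `k`. -/
def projSpaceStr (n : ℕ) (k : Type u) [Field k] : projSpace n k ⟶ Spec (.of k) :=
  projStr (homogeneousSubmodule (Fin (n + 1)) k)

end Pool.Agent.Helper44
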