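import Pool.Agent.Helper44.Ample
import Pool.Agent.Helper44.LocDer
import Pool.Agent.Helper44.ProjSpace
open AlgebraicGeometry CategoryTheory TopologicalSpace Opposite

universe u
noncomputable section

namespace Pool.Agent.Helper44

variable {k : Type u} [Field k]

/-- constants -/
def kConst {X : Scheme.{u}} (s : X ⟶ Spec (.of k)) (V : X.Opens) : k →+* Γ(X, V) :=
  (X.presheaf.map (homOfLE (le_top : V ≤ ⊤)).op).hom.comp
    (s.appTop.hom.comp (Scheme.ΓSpecIso (.of k)).inv.hom)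

lemma exists_of_mem_baseSections {X : Scheme.{u}} (s : X ⟶ Spec (.of k)) (V : X.Opens)
    (f : Γ(X, V)) (hf : f ∈ baseSections s V) : ∃ c : k, kConst s V c = f := by
  obtain ⟨W, h, c, rfl⟩ := hf
  by_cases hV : V = ⊥
  · subst hV
    exact ⟨0, Subsingleton.elim _ _⟩
  · have hW : W = ⊤ := by
      obtain ⟨x, hx⟩ := (Opens.ne_bot_iff_nonempty V).mp hV
      have hx' : s x ∈ W := h hx
      have : Subsingleton (Spec (.of k) : Scheme.{u}) := inferInstanceAs (Subsingleton (PrimeSpectrum k))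
      ext y
      rw [Subsingleton.elim y (s x)]
      simp [hx']
    subst hW
    refine ⟨(Scheme.ΓSpecIso (.of k)).hom.hom c, ?_⟩
    simp only [kConst, RingHom.comp_apply]
    have h1 : (Scheme.ΓSpecIso (.of k)).inv.hom ((Scheme.ΓSpecIso (.of k)).hom.hom c) = c := by
      rw [← CommRingCat.comp_apply, Iso.hom_inv_id]; rfl
    rw [h1]
    rfl


end Pool.Agent.Helper44


namespace Pool.Agent.Helper44

variable {k : Type u} [Field k] {A : Type u} [CommRing A] [Algebra k A]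
variable (𝒜 : ℕ → Submodule k A) [GradedAlgebra 𝒜]

variable (D : Derivation ℤ A A) (hD : ∀ i, ∀ a ∈ 𝒜 i, D a ∈ 𝒜 i)

/-- The action of a derivation of degree zero on sections. -/
def secDer (V : (Proj 𝒜).Opens) (f : Γ(Proj 𝒜, V)) : Γ(Proj 𝒜, V) :=
  ⟨fun x => homDer D hD (f.1 x), by
    intro x
    obtain ⟨W, mW, i, j, r, t, ht, hw⟩ := f.2 x
    refine ⟨W, mW, i, j + j, ⟨t.1 * D r.1 - r.1 * D t.1,
      sub_mem (SetLike.mul_mem_graded t.2 (hD _ _ r.2)) (SetLike.mul_mem_graded r.2 (hD _ _ t.2))⟩,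
      ⟨t.1 * t.1, SetLike.mul_mem_graded t.2 t.2⟩, ?_, ?_⟩
    · intro y hy
      rcases (y.1.isPrime).mem_or_mem hy with h | h <;> exact ht y h
    · intro y
      exact congrArg (homDer D hD) (hw y)⟩

lemma secDer_apply (V : (Proj 𝒜).Opens) (f : Γ(Proj 𝒜, V)) (x : V) :
    (secDer 𝒜 D hD V f).1 x = homDer D hD (f.1 x) := rfl

lemma secDer_zero (V : (Proj 𝒜).Opens) :
    secDer 𝒜 D hD V 0 = 0 := by
  apply Subtype.ext
  funext x
  exact homDer_zero D hD

lemma secDer_add (V : (Proj 𝒜).Opens) (f g : Γ(Proj 𝒜, V)) :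
    secDer 𝒜 D hD V (f + g) = secDer 𝒜 D hD V f + secDer 𝒜 D hD V g := by
  apply Subtype.ext
  funext x
  exact homDer_add D hD _ _

lemma secDer_mul (V : (Proj 𝒜).Opens) (f g : Γ(Proj 𝒜, V)) :
    secDer 𝒜 D hD V (f * g) = f * secDer 𝒜 D hD V g + g * secDer 𝒜 D hD V f := by
  apply Subtype.ext
  funext x
  exact homDer_mul D hD _ _

lemma secDer_res (V W : (Proj 𝒜).Opens) (h : W ≤ V) (f : Γ(Proj 𝒜, V)) :
    rs h (secDer 𝒜 D hD V f) = secDer 𝒜 D hD W (rs h f) := rfl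


lemma toSpecZero_appTop (a : 𝒜 0) :
    (Proj.toSpecZero 𝒜).appTop.hom ((Scheme.ΓSpecIso (.of (𝒜 0))).inv.hom a) =
      rs (le_of_eq (Proj.basicOpen_one 𝒜).symm) ((Proj.awayToSection 𝒜 1).hom
        (HomogeneousLocalization.fromZeroRingHom 𝒜 _ a)) := by
  have h1 : (Scheme.ΓSpecIso (.of (𝒜 0))).inv ≫ (Proj.toSpecZero 𝒜).appTop =
      CommRingCat.ofHom (HomogeneousLocalization.fromZeroRingHom 𝒜 _) ≫ Proj.awayToSection 𝒜 1 ≫
        (Proj 𝒜).presheaf.map (homOfLE (le_of_eq (Proj.basicOpen_one 𝒜).symm)).op := by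
    have e1 : (Proj.basicOpenToSpec 𝒜 1).appTop = (Scheme.ΓSpecIso _).hom ≫ Proj.awayToSection 𝒜 1 ≫
      (Proj.basicOpen 𝒜 1).topIso.inv := Proj.basicOpenToSpec_app_top 𝒜 1
    have e2 := Scheme.ΓSpecIso_inv_naturality (CommRingCat.ofHom (HomogeneousLocalization.fromZeroRingHom 𝒜 (Submonoid.powers 1)))
    rw [Proj.toSpecZero, Scheme.Hom.comp_appTop, Scheme.Hom.comp_appTop, Scheme.Hom.comp_appTop, e1,
      Category.assoc, Category.assoc, ← reassoc_of% e2]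
    simp only [Iso.inv_hom_id_assoc, Category.assoc]
    congr 2
    have h0 : (Proj 𝒜).topIso.inv ≫ ((Proj 𝒜).isoOfEq (Proj.basicOpen_one 𝒜)).inv ≫
        (Proj.basicOpen 𝒜 1).ι = 𝟙 _ := by
      rw [Scheme.isoOfEq_inv_ι]
      exact Scheme.toIso_inv_ι _
    have h2 := congrArg Scheme.Hom.appTop h0
    rw [Scheme.Hom.comp_appTop, Scheme.Hom.comp_appTop, Scheme.Hom.id_appTop, Category.assoc] at h2
    have h3 : (Proj.basicOpen 𝒜 1).ι.appTop ≫ (Proj.basicOpen 𝒜 1).topIso.hom =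
        (Proj 𝒜).presheaf.map (homOfLE (le_top : Proj.basicOpen 𝒜 1 ≤ ⊤)).op := by
      rw [Scheme.Opens.ι_appTop, Scheme.Opens.topIso_hom]
      exact ((Proj 𝒜).presheaf.map_comp _ _).symm
    have h4 : (Proj 𝒜).presheaf.map (homOfLE (le_of_eq (Proj.basicOpen_one 𝒜).symm)).op ≫
        (Proj 𝒜).presheaf.map (homOfLE (le_top : Proj.basicOpen 𝒜 1 ≤ ⊤)).op = 𝟙 _ := by
      rw [← Functor.map_comp]
      exact (Proj 𝒜).presheaf.map_id _
    calc _ = ((Proj 𝒜).presheaf.map (homOfLE (le_of_eq (Proj.basicOpen_one 𝒜).symm)).op ≫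
        (Proj 𝒜).presheaf.map (homOfLE (le_top : Proj.basicOpen 𝒜 1 ≤ ⊤)).op) ≫
        (Proj.basicOpen 𝒜 1).topIso.inv ≫ ((Proj 𝒜).isoOfEq (Proj.basicOpen_one 𝒜)).inv.appTop ≫
        (Proj 𝒜).topIso.inv.appTop := by rw [h4, Category.id_comp]
      _ = _ := by
        rw [← h3, Category.assoc, Category.assoc, Iso.hom_inv_id_assoc, h2]
        exact Category.comp_id _
  exact congrArg (fun f => f.hom a) h1


lemma projStr_appTop (c : k) :
    (projStr 𝒜).appTop.hom ((Scheme.ΓSpecIso (.of k)).inv.hom c) =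
      (Proj.toSpecZero 𝒜).appTop.hom ((Scheme.ΓSpecIso (.of (𝒜 0))).inv.hom
        (algebraMap k (𝒜 0) c)) := by
  have e2 := Scheme.ΓSpecIso_inv_naturality (CommRingCat.ofHom (algebraMap k (𝒜 0)))
  have e3 : (Scheme.ΓSpecIso (.of k)).inv ≫ (projStr 𝒜).appTop =
      CommRingCat.ofHom (algebraMap k (𝒜 0)) ≫ (Scheme.ΓSpecIso (.of (𝒜 0))).inv ≫
        (Proj.toSpecZero 𝒜).appTop := by
    rw [projStr, Scheme.Hom.comp_appTop, ← Category.assoc, ← e2, Category.assoc]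
  have e4 := congrArg (fun f => f.hom c) e3
  simp only [CommRingCat.hom_comp, RingHom.comp_apply] at e4
  exact e4

end Pool.Agent.Helper44
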