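import Pool.Agent.Helper44.ProjDer
open AlgebraicGeometry CategoryTheory TopologicalSpace Opposite

universe u
noncomputable section

namespace Pool.Agent.Helper44
variable {k : Type u} [Field k] {A : Type u} [CommRing A] [Algebra k A]
variable (𝒜 : ℕ → Submodule k A) [GradedAlgebra 𝒜]

lemma kConst_eq (V : (Proj 𝒜).Opens) (c : k) :
    kConst (projStr 𝒜) V c = rs (le_top.trans (le_of_eq (Proj.basicOpen_one 𝒜).symm))
      ((Proj.awayToSection 𝒜 1).hom
        (HomogeneousLocalization.fromZeroRingHom 𝒜 _ (algebraMap k (𝒜 0) c))) := by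
  simp only [kConst, RingHom.comp_apply]
  rw [projStr_appTop, toSpecZero_appTop]
  rfl

lemma kConst_apply (V : (Proj 𝒜).Opens) (c : k) (x : V) :
    ((kConst (projStr 𝒜) V c).1 x).val =
      algebraMap A _ (algebraMap k A c) := by
  rw [kConst_eq]
  rfl

/-- secDer as an additive map. -/
def secDerHom (D : Derivation ℤ A A) (hD : ∀ i, ∀ a ∈ 𝒜 i, D a ∈ 𝒜 i) (V : (Proj 𝒜).Opens) :
    Γ(Proj 𝒜, V) →+ Γ(Proj 𝒜, V) where
  toFun := secDer 𝒜 D hD V
  map_zero' := secDer_zero 𝒜 D hD V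
  map_add' := secDer_add 𝒜 D hD V

lemma secDer_kConst (D : Derivation k A A) (hD : ∀ i, ∀ a ∈ 𝒜 i, D a ∈ 𝒜 i)
   (V : (Proj 𝒜).Opens) (c : k) :
    secDer 𝒜 (D.restrictScalars ℤ) hD V (kConst (projStr 𝒜) V c) = 0 := by
  apply Subtype.ext
  funext x
  change homDer (D.restrictScalars ℤ) hD ((kConst (projStr 𝒜) V c).1 x) = 0
  apply HomogeneousLocalization.val_injective
  rw [val_homDer, kConst_apply, locDer_algebraMap, HomogeneousLocalization.val_zero]
  have : (D.restrictScalars ℤ) (algebraMap k A c) = 0 := D.map_algebraMap c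
  rw [this, map_zero]

/-- The global derivation of `Proj 𝒜` defined by a graded derivation of degree zero. -/
def projDer (D : Derivation k A A) (hD : ∀ i, ∀ a ∈ 𝒜 i, D a ∈ 𝒜 i) :
    SheafDer (Proj 𝒜) (baseSections (projStr 𝒜)) ⊤ where
  D V _ := secDerHom 𝒜 (D.restrictScalars ℤ) hD V
  leibniz V _ f g := secDer_mul 𝒜 (D.restrictScalars ℤ) hD V f g
  res V W _ h f := secDer_res 𝒜 (D.restrictScalars ℤ) hD V W h f
  kills V _ f hf := by
    obtain ⟨c, rfl⟩ := exists_of_mem_baseSections _ _ _ hf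
    exact secDer_kConst 𝒜 D hD V c

lemma projDer_apply (D : Derivation k A A) (hD : ∀ i, ∀ a ∈ 𝒜 i, D a ∈ 𝒜 i) 
    (V : (Proj 𝒜).Opens) (hV) (f : Γ(Proj 𝒜, V)) (x : V) : 
    (((projDer 𝒜 D hD).D V hV f).1 x).val = locDer (D.restrictScalars ℤ) _ (f.1 x).val :=
  val_homDer _ _ _

end Pool.Agent.Helper44
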