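import Pool.Agent.Helper44.QuadSections

open MvPolynomial AlgebraicGeometry CategoryTheory HomogeneousLocalization TopologicalSpace Opposite

universe u
noncomputable section

namespace Pool.Agent.Helper44

attribute [local instance] MvPolynomial.gradedAlgebra

section Lin

variable {k : Type u} [Field k] {A : Type u} [CommRing A] [Algebra k A]
variable (𝒜 : ℕ → Submodule k A) [GradedAlgebra 𝒜]

lemma locDer_add_left (D E F : Derivation ℤ A A) (h : ∀ a, F a = D a + E a) (S : Submonoid A)
    (z : Localization S) :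
    locDer F S z = locDer D S z + locDer E S z := by
  obtain ⟨⟨a, b⟩, rfl⟩ := Localization.mkHom_surjective z
  change locDer F S (Localization.mk a b) = locDer D S (Localization.mk a b) +
    locDer E S (Localization.mk a b)
  rw [locDer_mk, locDer_mk, locDer_mk, Localization.add_mk_self]
  congr 1
  rw [h, h]
  ring

lemma locDer_smul_left (c : A) (D E : Derivation ℤ A A) (h : ∀ a, E a = c * D a)
    (S : Submonoid A) (z : Localization S) :
    locDer E S z = algebraMap A _ c * locDer D S z := by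
  obtain ⟨⟨a, b⟩, rfl⟩ := Localization.mkHom_surjective z
  change locDer E S (Localization.mk a b) = _ * locDer D S (Localization.mk a b)
  rw [locDer_mk, locDer_mk, ← Localization.mk_one_eq_algebraMap, Localization.mk_mul, one_mul]
  congr 1
  rw [h, h]
  ring

lemma projDer_add (D E F : Derivation k A A) (hD : ∀ i, ∀ a ∈ 𝒜 i, D a ∈ 𝒜 i)
    (hE : ∀ i, ∀ a ∈ 𝒜 i, E a ∈ 𝒜 i) (hF : ∀ i, ∀ a ∈ 𝒜 i, F a ∈ 𝒜 i)
    (h : ∀ a, F a = D a + E a)
    (V : (Proj 𝒜).Opens) (f : Γ(Proj 𝒜, V)) :
    (projDer 𝒜 F hF).D V le_top f =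
      (projDer 𝒜 D hD).D V le_top f + (projDer 𝒜 E hE).D V le_top f := by
  apply sec_ext
  intro x
  rw [val_add', projDer_apply, projDer_apply, projDer_apply]
  exact locDer_add_left (D.restrictScalars ℤ) (E.restrictScalars ℤ) (F.restrictScalars ℤ) h _ _

lemma projDer_smul (c : k) (D F : Derivation k A A) (hD : ∀ i, ∀ a ∈ 𝒜 i, D a ∈ 𝒜 i)
    (hF : ∀ i, ∀ a ∈ 𝒜 i, F a ∈ 𝒜 i) (h : ∀ a, F a = algebraMap k A c * D a)
    (V : (Proj 𝒜).Opens) (f : Γ(Proj 𝒜, V)) :
    (projDer 𝒜 F hF).D V le_top f =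
      kConst (projStr 𝒜) V c * (projDer 𝒜 D hD).D V le_top f := by
  apply sec_ext
  intro x
  rw [val_mul', projDer_apply, projDer_apply, kConst_apply]
  exact locDer_smul_left (algebraMap k A c) (D.restrictScalars ℤ) (F.restrictScalars ℤ) h _ _

end Lin

end Pool.Agent.Helper44
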