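import Mathlib

open MvPolynomial

universe u
noncomputable section

namespace Pool.Agent.Helper44

attribute [local instance] MvPolynomial.gradedAlgebra

variable (k : Type u) [Field k]

/-- The quadratic form `x₀x₁ + x₂x₃ + x₄²`. -/
def quad : MvPolynomial (Fin 5) k := X 0 * X 1 + X 2 * X 3 + X 4 ^ 2

/-- The homogeneous coordinate ring of the quadric. -/
abbrev QuadRing : Type u := MvPolynomial (Fin 5) k ⧸ Ideal.span {quad k}

/-- The grading on the homogeneous coordinate ring. -/
def quadGrading (i : ℕ) : Submodule k (QuadRing k) :=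
  (homogeneousSubmodule (Fin 5) k i).map (Ideal.Quotient.mkₐ k (Ideal.span {quad k})).toLinearMap

lemma quad_mem : quad k ∈ homogeneousSubmodule (Fin 5) k 2 := by
  rw [mem_homogeneousSubmodule, quad]
  have h := fun i => isHomogeneous_X k (i : Fin 5)
  exact (((h 0).mul (h 1)).add ((h 2).mul (h 3))).add ((h 4).pow 2)

instance : SetLike.GradedMonoid (quadGrading k) where
  one_mem := ⟨1, isHomogeneous_one (Fin 5) k, by simp⟩
  mul_mem := by
    rintro i j _ _ ⟨a, ha, rfl⟩ ⟨b, hb, rfl⟩
    refine ⟨a * b, ?_, by simp⟩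
    exact IsHomogeneous.mul ha hb

/-- The degree `i` component of the quotient map. -/
def mkComp (i : ℕ) : homogeneousSubmodule (Fin 5) k i →ₗ[k] quadGrading k i :=
  ((Ideal.Quotient.mkₐ k (Ideal.span {quad k})).toLinearMap.restrict
    (fun x hx => ⟨x, hx, rfl⟩))

lemma coe_mkComp (i : ℕ) (x : homogeneousSubmodule (Fin 5) k i) :
    (mkComp k i x : QuadRing k) = Ideal.Quotient.mk _ (x : MvPolynomial (Fin 5) k) := rfl

/-- The map of graded pieces, as an algebra homomorphism on direct sums. -/
def sumMap : DirectSum ℕ (fun i => homogeneousSubmodule (Fin 5) k i) →ₐ[k]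
    DirectSum ℕ (fun i => quadGrading k i) :=
  DirectSum.toAlgebra k _
    (fun i => (DirectSum.lof k ℕ (fun i => quadGrading k i) i).comp (mkComp k i))
    (by rfl)
    (by
      intro i j a b
      simp only [LinearMap.comp_apply, DirectSum.lof_eq_of, DirectSum.of_mul_of]
      rfl)

/-- decomposition on the polynomial ring followed by the quotient map -/
def decPoly : MvPolynomial (Fin 5) k →ₐ[k] DirectSum ℕ (fun i => quadGrading k i) :=
  (sumMap k).comp (DirectSum.decomposeAlgEquiv (homogeneousSubmodule (Fin 5) k)).toAlgHom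

lemma decPoly_of_mem (i : ℕ) (x : MvPolynomial (Fin 5) k)
    (hx : x ∈ homogeneousSubmodule (Fin 5) k i) :
    decPoly k x = DirectSum.of (fun i => quadGrading k i) i (mkComp k i ⟨x, hx⟩) := by
  have h1 : DirectSum.decompose (homogeneousSubmodule (Fin 5) k) x =
      DirectSum.of (fun i => homogeneousSubmodule (Fin 5) k i) i ⟨x, hx⟩ :=
    DirectSum.decompose_of_mem _ hx
  change sumMap k (DirectSum.decompose (homogeneousSubmodule (Fin 5) k) x) = _
  rw [h1, sumMap]
  exact DirectSum.toAddMonoid_of _ _ _

/-- The decomposition of the quotient ring. -/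
def decQuad : QuadRing k →ₐ[k] DirectSum ℕ (fun i => quadGrading k i) :=
  Ideal.Quotient.liftₐ _ (decPoly k) (by
    intro a ha
    obtain ⟨b, rfl⟩ := Ideal.mem_span_singleton'.mp ha
    rw [map_mul, decPoly_of_mem k 2 _ (quad_mem k)]
    have : mkComp k 2 ⟨quad k, quad_mem k⟩ = 0 := by
      apply Subtype.ext
      rw [coe_mkComp]
      exact Ideal.Quotient.eq_zero_iff_mem.mpr (Ideal.subset_span rfl)
    rw [this, map_zero, mul_zero])

instance : GradedAlgebra (quadGrading k) :=
  GradedAlgebra.ofAlgHom (quadGrading k) (decQuad k)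
    (by
      apply Ideal.Quotient.algHom_ext
      apply MvPolynomial.algHom_ext
      intro i
      have hi : (X i : MvPolynomial (Fin 5) k) ∈ homogeneousSubmodule (Fin 5) k 1 :=
        isHomogeneous_X k i
      change DirectSum.coeAlgHom (quadGrading k) (decPoly k (X i)) = _
      rw [decPoly_of_mem k 1 _ hi, DirectSum.coeAlgHom_of, coe_mkComp]
      rfl)
    (by
      rintro i ⟨_, ⟨x, hx, rfl⟩⟩
      exact decPoly_of_mem k i x hx)

end Pool.Agent.Helper44
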