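import Pool.Agent.Helper44.ProjDer2
import Pool.Agent.Helper44.QuadRing

open MvPolynomial

universe u
noncomputable section

namespace Pool.Agent.Helper44

attribute [local instance] MvPolynomial.gradedAlgebra

/-- The derivation `x_i ∂/∂x_j`. -/
def elemDer (k : Type u) [Field k] {σ : Type*} (i j : σ) :
    Derivation k (MvPolynomial σ k) (MvPolynomial σ k) := (X i : MvPolynomial σ k) • pderiv j

/-- A derivation of the polynomial ring sending variables to linear forms preserves degrees. -/
lemma elemDer_mem {k : Type u} [Field k] {σ : Type*} (i j : σ) (n : ℕ) (a : MvPolynomial σ k)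
    (ha : a ∈ homogeneousSubmodule σ k n) : elemDer k i j a ∈ homogeneousSubmodule σ k n := by
  rw [elemDer, Derivation.smul_apply, smul_eq_mul]
  cases n with
  | zero =>
    rw [mem_homogeneousSubmodule] at ha
    have h : a = C (coeff 0 a) := by
      have := totalDegree_eq_zero_iff_eq_C.mp (Nat.le_zero.mp ha.totalDegree_le)
      exact this
    rw [h, pderiv_C, mul_zero]
    exact Submodule.zero_mem _
  | succ n =>
    have h1 := (isHomogeneous_X k i).mul (IsHomogeneous.pderiv (i := j) ha)
    rw [Nat.add_sub_cancel, add_comm] at h1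
    exact h1

variable (k : Type u) [Field k]

section CharTwo

variable [CharP k 2]

lemma pderiv_quad : pderiv (4 : Fin 5) (quad k) = 0 := by
  have h2 : (2 : MvPolynomial (Fin 5) k) = 0 := by
    have := CharP.cast_eq_zero (MvPolynomial (Fin 5) k) 2
    exact_mod_cast this
  simp [quad, pderiv_X, Derivation.leibniz_pow, h2]

lemma elemDer_kill (i : Fin 5) (x : MvPolynomial (Fin 5) k)
    (hx : Ideal.Quotient.mkₐ k (Ideal.span {quad k}) x = 0) :
    Ideal.Quotient.mkₐ k (Ideal.span {quad k}) (elemDer k i 4 x) = 0 := by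
  have hx' : x ∈ Ideal.span {quad k} := Ideal.Quotient.eq_zero_iff_mem.mp hx
  obtain ⟨b, rfl⟩ := Ideal.mem_span_singleton'.mp hx'
  refine Ideal.Quotient.eq_zero_iff_mem.mpr ?_
  rw [Derivation.leibniz, elemDer, Derivation.smul_apply, pderiv_quad, smul_zero, smul_zero,
    zero_add, smul_eq_mul]
  exact Ideal.mul_mem_right _ _ (Ideal.subset_span rfl)

/-- The derivation `x_i ∂/∂x_4` of the coordinate ring of the quadric. -/
def quadDer (i : Fin 5) : Derivation k (QuadRing k) (QuadRing k) :=
  Derivation.liftOfSurjective (R := k) (f := Ideal.Quotient.mkₐ k (Ideal.span {quad k}))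
    (Ideal.Quotient.mkₐ_surjective k _) (d := elemDer k i 4) (elemDer_kill k i)

lemma quadDer_mk (i : Fin 5) (x : MvPolynomial (Fin 5) k) :
    quadDer k i (Ideal.Quotient.mk _ x) = Ideal.Quotient.mk _ (X i * pderiv 4 x) :=
  Derivation.liftOfSurjective_apply (Ideal.Quotient.mkₐ_surjective k _) (elemDer_kill k i) x

lemma quadDer_mem (i : Fin 5) (n : ℕ) (a : QuadRing k) (ha : a ∈ quadGrading k n) :
    quadDer k i a ∈ quadGrading k n := by
  obtain ⟨x, hx, rfl⟩ := ha
  exact ⟨elemDer k i 4 x, elemDer_mem i 4 n x hx, (quadDer_mk k i x).symm⟩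

end CharTwo

end Pool.Agent.Helper44
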