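import Pool.Agent.Helper44.QuadSections

open MvPolynomial AlgebraicGeometry CategoryTheory HomogeneousLocalization TopologicalSpace Opposite

universe u
noncomputable section

namespace Pool.Agent.Helper44

attribute [local instance] MvPolynomial.gradedAlgebra

variable (k : Type u) [Field k]

/-- The quotient map as a homomorphism of graded rings. -/
def quotGr : GradedRingHom (homogeneousSubmodule (Fin 5) k) (quadGrading k) where
  __ := Ideal.Quotient.mk (Ideal.span {quad k})
  map_mem {i x} hx := ⟨x, hx, rfl⟩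

lemma quotGr_apply (x : MvPolynomial (Fin 5) k) : quotGr k x = Ideal.Quotient.mk _ x := rfl

lemma quotGr_irr : HomogeneousIdeal.irrelevant (quadGrading k) ≤
    (HomogeneousIdeal.irrelevant (homogeneousSubmodule (Fin 5) k)).map (quotGr k) := by
  have h : (HomogeneousIdeal.irrelevant (quadGrading k)).toIdeal ≤
    ((HomogeneousIdeal.irrelevant (homogeneousSubmodule (Fin 5) k)).map (quotGr k)).toIdeal := by
    rw [HomogeneousIdeal.toIdeal_irrelevant_le]
    rintro i hi _ ⟨a, ha, rfl⟩
    exact Ideal.mem_map_of_mem _ (HomogeneousIdeal.mem_irrelevant_of_mem _ hi ha)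
  exact h

/-- The embedding of the quadric in projective space. -/
def quadEmb : Proj (quadGrading k) ⟶ Proj (homogeneousSubmodule (Fin 5) k) :=
  Proj.map (quotGr k) (quotGr_irr k)

lemma X_mem' {n : ℕ} (j : Fin n) : (X j : MvPolynomial (Fin n) k) ∈ homogeneousSubmodule (Fin n) k 1 :=
  isHomogeneous_X k j

lemma away_surj (j : Fin 5) : Function.Surjective
    (Away.map (quotGr k) (X j : MvPolynomial (Fin 5) k)) := by
  intro z
  obtain ⟨n, b, hb, rfl⟩ := Away.mk_surjective (quadGrading k)
    (GradedFunLike.map_mem (quotGr k) (X_mem' k j)) z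
  obtain ⟨a, ha, rfl⟩ := hb
  exact ⟨Away.mk (homogeneousSubmodule (Fin 5) k) (X_mem' k j) n a ha,
    Away.map_mk _ _ _ _ _ _⟩

lemma quadEmb_preimage (j : Fin 5) :
    quadEmb k ⁻¹ᵁ Proj.basicOpen (homogeneousSubmodule (Fin 5) k) (X j) =
      Proj.basicOpen (quadGrading k) (quotGr k (X j)) := Proj.map_preimage_basicOpen _ _ _

lemma quadEmb_restrict (j : Fin 5) : IsClosedImmersion
    (quadEmb k ∣_ Proj.basicOpen (homogeneousSubmodule (Fin 5) k) (X j)) := by
  have h1 : IsClosedImmersion (Spec.map (CommRingCat.ofHom (Away.map (quotGr k) (X j)))) :=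
    IsClosedImmersion.spec_of_surjective _ (away_surj k j)
  let e1 := (Proj (quadGrading k)).isoOfEq (quadEmb_preimage k j) ≪≫
    Proj.basicOpenIsoSpec (quadGrading k) (quotGr k (X j)) (xq_mem k j) one_pos
  let e2 := Proj.basicOpenIsoSpec (homogeneousSubmodule (Fin 5) k) (X j) (X_mem' k j) one_pos
  have hc : (quadEmb k ∣_ Proj.basicOpen (homogeneousSubmodule (Fin 5) k) (X j)) ≫ e2.hom =
    e1.hom ≫ Spec.map (CommRingCat.ofHom (Away.map (quotGr k) (X j))) := by
    have e3 : e2.hom ≫ Proj.awayι (homogeneousSubmodule (Fin 5) k) (X j) (X_mem' k j) one_pos =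
      (Proj.basicOpen (homogeneousSubmodule (Fin 5) k) (X j)).ι := by
      rw [← Iso.eq_inv_comp]
      rfl
    have e4 : e1.hom ≫ Proj.awayι (quadGrading k) (quotGr k (X j)) (xq_mem k j) one_pos =
      (quadEmb k ⁻¹ᵁ Proj.basicOpen (homogeneousSubmodule (Fin 5) k) (X j)).ι := by
      rw [← Scheme.isoOfEq_hom_ι (Proj (quadGrading k)) (quadEmb_preimage k j)]
      rw [Iso.trans_hom, Category.assoc]
      congr 1
      rw [← Iso.eq_inv_comp]
      rfl
    rw [← cancel_mono (Proj.awayι (homogeneousSubmodule (Fin 5) k) (X j) (X_mem' k j) one_pos),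
      Category.assoc, Category.assoc, ← Proj.awayι_comp_map (quotGr k) (quotGr_irr k), e3, ← Category.assoc, e4]
    exact morphismRestrict_ι _ _
  exact ((MorphismProperty.arrow_mk_iso_iff @IsClosedImmersion (Arrow.isoMk e1 e2 hc.symm)).mpr h1)

lemma adjoin_X (n : ℕ) : Algebra.adjoin (homogeneousSubmodule (Fin n) k 0)
    (Set.range (X : Fin n → MvPolynomial (Fin n) k)) = ⊤ := by
  rw [eq_top_iff]
  rintro p -
  induction p using MvPolynomial.induction_on with
  | C c =>
    exact Subalgebra.algebraMap_mem _ (algebraMap k (homogeneousSubmodule (Fin n) k 0) c)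
  | add p q hp hq => exact add_mem hp hq
  | mul_X p j hp => exact mul_mem hp (Algebra.subset_adjoin ⟨j, rfl⟩)

lemma quadEmb_closed : IsClosedImmersion (quadEmb k) := by
  have hadj := Proj.iSup_basicOpen_eq_top' (homogeneousSubmodule (Fin 5) k)
    (X : Fin 5 → MvPolynomial (Fin 5) k) (fun i => ⟨1, X_mem' k i⟩) (adjoin_X k 5)
  rw [IsZariskiLocalAtTarget.iff_of_iSup_eq_top (P := @IsClosedImmersion) _ hadj]
  exact quadEmb_restrict k

lemma awayι_projStr5 (j : Fin 5) :
    Proj.awayι (homogeneousSubmodule (Fin 5) k) (X j) (X_mem' k j) one_pos ≫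
      projStr (homogeneousSubmodule (Fin 5) k) =
      Spec.map (CommRingCat.ofHom ((fromZeroRingHom (homogeneousSubmodule (Fin 5) k) _).comp
        (algebraMap k (homogeneousSubmodule (Fin 5) k 0)))) := by
  rw [projStr, Proj.awayι_toSpecZero_assoc, ← Spec.map_comp]
  rfl

lemma chart_quadEmb (j : Fin 5) :
    Proj.awayι (quadGrading k) (quotGr k (X j)) (xq_mem k j) one_pos ≫ quadEmb k ≫
      projStr (homogeneousSubmodule (Fin 5) k) =
    Spec.map (CommRingCat.ofHom ((Away.map (quotGr k) (X j)).comp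
      ((fromZeroRingHom (homogeneousSubmodule (Fin 5) k) _).comp
        (algebraMap k (homogeneousSubmodule (Fin 5) k 0))))) := by
  rw [quadEmb, Proj.awayι_comp_map_assoc (hs := X_mem' k j), awayι_projStr5, ← Spec.map_comp]
  rfl

lemma quadEmb_projStr :
    quadEmb k ≫ projStr (homogeneousSubmodule (Fin 5) k) = projStr (quadGrading k) := by
  have key : ∀ i : Fin 4, chartι k i ≫ quadEmb k ≫ projStr (homogeneousSubmodule (Fin 5) k) =
      chartι k i ≫ projStr (quadGrading k) := by
    intro i
    exact (chart_quadEmb k i.castSucc).trans (awayι_projStr k i.castSucc).symm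
  exact (quadCover k).openCover.hom_ext _ _ key

end Pool.Agent.Helper44
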