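import Pool.Agent.Helper44.QuadScheme

open MvPolynomial AlgebraicGeometry CategoryTheory HomogeneousLocalization TopologicalSpace

universe u
noncomputable section

namespace Pool.Agent.Helper44

variable (k : Type u) [Field k]

/-- The chart `Spec k[a,b,c] ⟶ X`. -/
abbrev chartι (i : Fin 4) : Spec (.of (Away (quadGrading k) (xq k i.castSucc))) ⟶ Proj (quadGrading k) :=
  Proj.awayι (quadGrading k) (xq k i.castSucc) (xq_mem k _) one_pos

lemma opensRange_chartι (i : Fin 4) :
    (chartι k i).opensRange = Proj.basicOpen (quadGrading k) (xq k i.castSucc) :=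
  Proj.opensRange_awayι _ _ _ _

instance away_isDomain (i : Fin 4) : IsDomain (Away (quadGrading k) (xq k i.castSucc)) :=
  (chartEquiv k i).toMulEquiv.isDomain _

lemma dehomVar_ne_zero (i : Fin 4) (j : Fin 5) : dehomVar k i j ≠ 0 := by
  have h0 : (X 0 * X 1 + X 2 ^ 2 : MvPolynomial (Fin 3) k) ≠ 0 := by
    intro h
    have := congrArg (aeval (fun i : Fin 3 => if i = 2 then (1 : k) else 0)) h
    simp at this
  have h1 : -(X 0 * X 1 + X 2 ^ 2 : MvPolynomial (Fin 3) k) ≠ 0 := neg_ne_zero.mpr h0
  fin_cases i <;> fin_cases j <;>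
    first | exact one_ne_zero | exact X_ne_zero _ | exact h1

lemma fracq_ne_zero (i : Fin 4) (j : Fin 5) : fracq k i.castSucc j ≠ 0 := by
  intro h
  have := congrArg (toPoly k i) h
  rw [toPoly_fracq, map_zero] at this
  exact dehomVar_ne_zero k i j this

lemma chart_preimage (i : Fin 4) (j : Fin 5) :
    (chartι k i) ⁻¹ᵁ (Proj.basicOpen (quadGrading k) (xq k j)) =
      PrimeSpectrum.basicOpen (fracq k i.castSucc j) := by
  rw [chartι, Proj.awayι_preimage_basicOpen (quadGrading k) (xq_mem k _) one_pos (xq_mem k j) one_pos]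
  congr 1
  apply val_injective
  simp [fracq]

/-- The cover of the quadric by the four charts. -/
def quadCover : (Proj (quadGrading k)).AffineOpenCover where
  I₀ := Fin 4
  X i := .of (Away (quadGrading k) (xq k i.castSucc))
  f i := chartι k i
  idx x := (not_mem_all k x).choose
  covers x := by
    change x ∈ (chartι k _).opensRange
    rw [opensRange_chartι]
    exact (not_mem_all k x).choose_spec

lemma quad_isReduced : IsReduced (Proj (quadGrading k)) := by
  have : ∀ i, IsReduced ((quadCover k).openCover.X i) := by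
    intro i
    change IsReduced (Spec (.of (Away (quadGrading k) (xq k i.castSucc))))
    infer_instance
  exact IsReduced.of_openCover _ (quadCover k).openCover

lemma inter_nonempty (i j : Fin 4) (O : (Proj (quadGrading k)).Opens)
    (h : ((chartι k i) ⁻¹ᵁ O).1.Nonempty) :
    ((chartι k j) ⁻¹ᵁ O).1.Nonempty := by
  have h1 : ((chartι k i) ⁻¹ᵁ (Proj.basicOpen (quadGrading k) (xq k j.castSucc))).1.Nonempty := by
    rw [chart_preimage]
    refine ⟨⟨⊥, Ideal.isPrime_bot⟩, ?_⟩
    change fracq k i.castSucc j.castSucc ∉ (⊥ : Ideal _)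
    rw [Ideal.mem_bot]
    exact fracq_ne_zero k i _
  obtain ⟨y, hy1, hy2⟩ := nonempty_preirreducible_inter (Opens.isOpen _) (Opens.isOpen _) h h1
  have hy3 : (chartι k i) y ∈ (chartι k j).opensRange := by
    rw [opensRange_chartι]; exact hy2
  obtain ⟨z, hz⟩ := hy3
  refine ⟨z, ?_⟩
  change (chartι k j) z ∈ O
  rw [hz]
  exact hy1

lemma quad_irreducible : IrreducibleSpace (Proj (quadGrading k)) := by
  have hne : Nonempty (Proj (quadGrading k)) := ⟨(chartι k 0) ⟨⊥, Ideal.isPrime_bot⟩⟩
  have hpre : PreirreducibleSpace (Proj (quadGrading k)) := by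
    constructor
    intro u v hu hv ⟨y, _, hy⟩ ⟨z, _, hz⟩
    obtain ⟨i, hi⟩ := not_mem_all k y
    obtain ⟨j, hj⟩ := not_mem_all k z
    have hy' : y ∈ (chartι k i).opensRange := by rw [opensRange_chartι]; exact hi
    have hz' : z ∈ (chartι k j).opensRange := by rw [opensRange_chartι]; exact hj
    obtain ⟨y', rfl⟩ := hy'
    obtain ⟨z', rfl⟩ := hz'
    have h1 := inter_nonempty k i j ⟨u, hu⟩ ⟨y', hy⟩
    obtain ⟨w, hw1, hw2⟩ := nonempty_preirreducible_inter (Opens.isOpen _) (Opens.isOpen _) h1
      (⟨z', hz⟩ : ((chartι k j) ⁻¹ᵁ ⟨v, hv⟩).1.Nonempty)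
    exact ⟨(chartι k j) w, trivial, hw1, hw2⟩
  exact { toPreirreducibleSpace := hpre, toNonempty := hne }

lemma quad_isIntegral : IsIntegral (Proj (quadGrading k)) := by
  have := quad_isReduced k
  have := quad_irreducible k
  exact isIntegral_of_irreducibleSpace_of_isReduced _

end Pool.Agent.Helper44
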