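import Pool.Agent.Helper44.QuadSections

open MvPolynomial AlgebraicGeometry CategoryTheory HomogeneousLocalization TopologicalSpace Opposite

universe u
noncomputable section

namespace Pool.Agent.Helper44

section Sub

variable {X : Scheme.{u}} {Z Z' : ∀ V : X.Opens, Set Γ(X, V)}

/-- Forgetting that a derivation kills more sections. -/
def SheafDer.weaken (hZZ : ∀ V, Z' V ⊆ Z V) {U : X.Opens} (D : SheafDer X Z U) :
    SheafDer X Z' U where
  D := D.D
  leibniz := D.leibniz
  res := D.res
  kills V hV f hf := D.kills V hV f (hZZ V hf)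

/-- Strengthening a derivation. -/
def SheafDer.strengthen {U : X.Opens} (D : SheafDer X Z U)
    (h : ∀ (V : X.Opens) (hV : V ≤ U), ∀ f ∈ Z' V, D.D V hV f = 0) :
    SheafDer X Z' U where
  D := D.D
  leibniz := D.leibniz
  res := D.res
  kills := h

/-- The inclusion of a sheaf of derivations in the tangent sheaf. -/
def derIncl {X S : Scheme.{u}} (s : X ⟶ S) {Z : ∀ V : X.Opens, Set Γ(X, V)}
    (hZ : ∀ (V W : X.Opens) (h : W ≤ V) (f : Γ(X, V)), f ∈ Z V → rs h f ∈ Z W)
    (hZZ : ∀ V, baseSections s V ⊆ Z V) : derSheaf X Z hZ ⟶ tangentSheaf s :=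
  ⟨PresheafOfModules.homMk
    (M₁ := (derSheaf X Z hZ).val) (M₂ := (tangentSheaf s).val)
    { app := fun U => AddCommGrpCat.ofHom
        { toFun := fun D => ofSD (SheafDer.weaken hZZ (D : SheafDer X Z U.unop))
          map_zero' := rfl
          map_add' := fun _ _ => rfl }
      naturality := fun _ _ _ => rfl }
    (fun U r m => rfl)⟩

end Sub

end Pool.Agent.Helper44
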