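import Pool.Agent.Helper44.Chart

open MvPolynomial AlgebraicGeometry CategoryTheory

universe u
noncomputable section

namespace Pool.Agent.Helper44

/-- The trivial presentation of a polynomial ring. -/
def polyPres (R : Type u) [CommRing R] (n : ℕ) :
    Algebra.SubmersivePresentation R (MvPolynomial (Fin n) R) (Fin n) PEmpty.{1} where
  __ := Algebra.Generators.ofSurjective (R := R) (S := MvPolynomial (Fin n) R) (fun i => X i) (by
    intro p
    exact ⟨p, aeval_X_left_apply p⟩)
  relation := PEmpty.elim
  span_range_relation_eq_ker := by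
    simp only [Set.range_eq_empty, Ideal.span_empty]
    symm
    rw [Algebra.Generators.ker_eq_ker_aeval_val, eq_bot_iff]
    intro p hp
    have h1 : aeval (R := R) (fun i => (X i : MvPolynomial (Fin n) R)) p = 0 := hp
    rw [aeval_X_left_apply] at h1
    exact h1
  map := PEmpty.elim
  map_inj := fun a => a.elim
  jacobian_isUnit := by
    classical
    rw [Algebra.PreSubmersivePresentation.jacobian_eq_jacobiMatrix_det, Matrix.det_isEmpty, map_one]
    exact isUnit_one

lemma polySmooth (R : Type u) [CommRing R] (n : ℕ) : 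
    Algebra.IsStandardSmoothOfRelativeDimension n R (MvPolynomial (Fin n) R) :=
  (polyPres R n).isStandardSmoothOfRelativeDimension (by simp [Algebra.Presentation.dimension])

variable (k : Type u) [Field k]

open HomogeneousLocalization

/-- The quadric threefold. -/
def Quad3 : Scheme.{u} := Proj (quadGrading k)

/-- The structure morphism of the quadric threefold. -/
def quadStr : Quad3 k ⟶ Spec (.of k) := projStr (quadGrading k)

lemma adjoin_xq : Algebra.adjoin (quadGrading k 0) (Set.range (xq k)) = ⊤ := by
  rw [eq_top_iff]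
  rintro a -
  obtain ⟨p, rfl⟩ := Ideal.Quotient.mk_surjective a
  induction p using MvPolynomial.induction_on with
  | C c =>
    exact Subalgebra.algebraMap_mem _ (algebraMap k (quadGrading k 0) c)
  | add p q hp hq =>
    rw [map_add]
    exact add_mem hp hq
  | mul_X p j hp =>
    rw [map_mul]
    exact mul_mem hp (Algebra.subset_adjoin ⟨j, rfl⟩)

instance : Algebra.FiniteType (quadGrading k 0) (QuadRing k) where
  out := by
    classical
    exact ⟨Finset.univ.image (xq k), by simpa using adjoin_xq k⟩

instance : Nontrivial (QuadRing k) :=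
  (dehom k 0 : QuadRing k →+* MvPolynomial (Fin 3) k).domain_nontrivial

lemma algebraMap_zero_bijective : Function.Bijective (algebraMap k (quadGrading k 0)) := by
  constructor
  · have : Nontrivial (quadGrading k 0) := by
      refine ⟨⟨0, 1, ?_⟩⟩
      intro h
      have := congrArg Subtype.val h
      exact zero_ne_one this
    exact (algebraMap k (quadGrading k 0)).injective
  · rintro ⟨_, ⟨p, hp, rfl⟩⟩
    change p ∈ homogeneousSubmodule (Fin 5) k 0 at hp
    rw [mem_homogeneousSubmodule] at hp
    have h : p = C (coeff 0 p) := totalDegree_eq_zero_iff_eq_C.mp (Nat.le_zero.mp hp.totalDegree_le)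
    refine ⟨coeff 0 p, ?_⟩
    apply Subtype.ext
    change Ideal.Quotient.mk _ (C (coeff 0 p)) = Ideal.Quotient.mk _ p
    rw [← h]

lemma isIso_zero : IsIso (CommRingCat.ofHom (algebraMap k (quadGrading k 0))) := by
  rw [ConcreteCategory.isIso_iff_bijective]
  exact algebraMap_zero_bijective k

lemma not_mem_all (x : Proj (quadGrading k)) : ∃ i : Fin 4, xq k i.castSucc ∉ x.asHomogeneousIdeal := by
  by_contra! H
  have h4 : xq k 4 ∈ x.asHomogeneousIdeal := by
    have hr := xq_rel k
    have : xq k 4 ^ 2 = -(xq k 0 * xq k 1 + xq k 2 * xq k 3) := by linear_combination hr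
    have h2 : xq k 4 ^ 2 ∈ x.asHomogeneousIdeal.toIdeal := by
      rw [this]
      refine neg_mem (add_mem ?_ ?_)
      · exact Ideal.mul_mem_right _ _ (H 0)
      · exact Ideal.mul_mem_right _ _ (H 2)
    exact x.isPrime.mem_of_pow_mem 2 h2
  have hall : ∀ j : Fin 5, xq k j ∈ x.asHomogeneousIdeal := by
    intro j
    refine Fin.lastCases ?_ ?_ j
    · exact h4
    · exact H
  have hadj := adjoin_xq k
  have := Proj.iSup_basicOpen_eq_top' (quadGrading k) (xq k) (fun i => ⟨1, xq_mem k i⟩) hadj
  have hx : x ∈ (⊤ : (Proj (quadGrading k)).Opens) := trivial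
  rw [← this, TopologicalSpace.Opens.mem_iSup] at hx
  obtain ⟨j, hj⟩ := hx
  exact hj (hall j)

lemma iSup_basicOpen : ⨆ i : Fin 4, Proj.basicOpen (quadGrading k) (xq k i.castSucc) = ⊤ := by
  rw [eq_top_iff]
  intro x _
  obtain ⟨i, hi⟩ := not_mem_all k x
  exact TopologicalSpace.Opens.mem_iSup.mpr ⟨i, hi⟩

lemma quad_isProper : IsProper (projStr (quadGrading k)) := by
  have := isIso_zero k
  rw [projStr]
  infer_instance

lemma awayι_projStr (i : Fin 5) :
    Proj.awayι (quadGrading k) (xq k i) (xq_mem k i) one_pos ≫ projStr (quadGrading k) =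
      Spec.map (CommRingCat.ofHom (constAway k (xq k i))) := by
  rw [projStr, Proj.awayι_toSpecZero_assoc, ← Spec.map_comp]
  rfl

lemma constAway_smooth (i : Fin 4) :
    RingHom.IsStandardSmoothOfRelativeDimension 3 (constAway k (xq k i.castSucc)) := by
  have h1 : RingHom.IsStandardSmoothOfRelativeDimension 3
      (algebraMap k (MvPolynomial (Fin 3) k)) := by
    rw [RingHom.isStandardSmoothOfRelativeDimension_algebraMap]
    exact polySmooth k 3
  have h2 := RingHom.isStandardSmoothOfRelativeDimension_respectsIso.1 _
    (chartEquiv k i).symm h1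
  have h3 : constAway k (xq k i.castSucc) = (chartEquiv k i).symm.toRingHom.comp
      (algebraMap k (MvPolynomial (Fin 3) k)) := by
    ext1 c
    have : chartEquiv k i (constAway k _ c) = C c := toPoly_const k i c
    exact ((RingEquiv.symm_apply_eq _).mpr this.symm).symm
  rw [h3]
  exact h2

lemma quad_smooth : SmoothOfRelativeDimension 3 (projStr (quadGrading k)) := by
  rw [IsZariskiLocalAtSource.iff_of_iSup_eq_top (P := @SmoothOfRelativeDimension 3) _
    (iSup_basicOpen k)]
  intro i
  rw [← MorphismProperty.cancel_left_of_respectsIso (P := @SmoothOfRelativeDimension 3)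
    (Proj.basicOpenIsoSpec (quadGrading k) (xq k i.castSucc) (xq_mem k _) one_pos).inv,
    ← Category.assoc, ← Proj.awayι, awayι_projStr,
    HasRingHomProperty.Spec_iff (P := @SmoothOfRelativeDimension 3)]
  exact RingHom.locally_of RingHom.isStandardSmoothOfRelativeDimension_respectsIso _
    (constAway_smooth k i)

end Pool.Agent.Helper44
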