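import Pool.Agent.Helper44.QuadIntegral
import Pool.Agent.Helper44.DerUnique

open MvPolynomial AlgebraicGeometry CategoryTheory HomogeneousLocalization TopologicalSpace

universe u
noncomputable section

namespace Pool.Agent.Helper44

section General

variable {k : Type u} [Field k] {A : Type u} [CommRing A] [Algebra k A]
variable (𝒜 : ℕ → Submodule k A) [GradedAlgebra 𝒜]

/-- The section `a / b` of the structure sheaf over `D₊(b)`. -/
def fracSec {d : ℕ} (a b : A) (ha : a ∈ 𝒜 d) (hb : b ∈ 𝒜 d) : Γ(Proj 𝒜, Proj.basicOpen 𝒜 b) :=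
  ⟨fun x => HomogeneousLocalization.mk ⟨d, ⟨a, ha⟩, ⟨b, hb⟩, x.2⟩, fun x =>
    ⟨Proj.basicOpen 𝒜 b, x.2, 𝟙 _, d, ⟨a, ha⟩, ⟨b, hb⟩, fun y => y.2, fun _ => rfl⟩⟩

lemma sec_ext {V : (Proj 𝒜).Opens} {f g : Γ(Proj 𝒜, V)}
    (h : ∀ x : V, (f.1 x).val = (g.1 x).val) : f = g := by
  apply Subtype.ext
  funext x
  exact val_injective _ (h x)

lemma val_fracSec {d : ℕ} (a b : A) (ha : a ∈ 𝒜 d) (hb : b ∈ 𝒜 d) {V : (Proj 𝒜).Opens}
    (hV : V ≤ Proj.basicOpen 𝒜 b) (x : V) :
    ((rs hV (fracSec 𝒜 a b ha hb)).1 x).val = Localization.mk a ⟨b, hV x.2⟩ := rfl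

lemma val_add' {V : (Proj 𝒜).Opens} (f g : Γ(Proj 𝒜, V)) (x : V) :
    ((f + g).1 x).val = (f.1 x).val + (g.1 x).val := val_add _ _

lemma val_mul' {V : (Proj 𝒜).Opens} (f g : Γ(Proj 𝒜, V)) (x : V) :
    ((f * g).1 x).val = (f.1 x).val * (g.1 x).val := val_mul _ _

lemma val_one' {V : (Proj 𝒜).Opens} (x : V) :
    ((1 : Γ(Proj 𝒜, V)).1 x).val = 1 := val_one

lemma val_zero' {V : (Proj 𝒜).Opens} (x : V) :
    ((0 : Γ(Proj 𝒜, V)).1 x).val = 0 := val_zero

lemma locDer_prop {A : Type*} [CommRing A] (D E : Derivation ℤ A A) (S : Submonoid A) (x y : A)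
    (hx : x ∈ S) (h : ∀ a, x * D a = y * E a) (z : Localization S) :
    locDer D S z = Localization.mk y ⟨x, hx⟩ * locDer E S z := by
  obtain ⟨⟨a, b⟩, rfl⟩ := Localization.mkHom_surjective z
  change locDer D S (Localization.mk a b) = _ * locDer E S (Localization.mk a b)
  rw [locDer_mk, locDer_mk, Localization.mk_mul, Localization.mk_eq_mk_iff, Localization.r_iff_exists]
  refine ⟨1, ?_⟩
  simp only [OneMemClass.coe_one, one_mul, Submonoid.coe_mul, SubmonoidClass.coe_pow]
  have h1 := h a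
  have h2 := h b
  linear_combination (b : A) ^ 3 * h1 - (b : A) ^ 2 * a * h2

lemma projDer_prop (D E : Derivation k A A) (hD : ∀ i, ∀ a ∈ 𝒜 i, D a ∈ 𝒜 i)
    (hE : ∀ i, ∀ a ∈ 𝒜 i, E a ∈ 𝒜 i) {d : ℕ} (x y : A) (hx : x ∈ 𝒜 d) (hy : y ∈ 𝒜 d)
    (h : ∀ a, x * D a = y * E a) {V : (Proj 𝒜).Opens} (hV : V ≤ Proj.basicOpen 𝒜 x)
    (f : Γ(Proj 𝒜, V)) :
    (projDer 𝒜 D hD).D V le_top f = rs hV (fracSec 𝒜 y x hy hx) * (projDer 𝒜 E hE).D V le_top f := by
  apply sec_ext
  intro p
  rw [val_mul', projDer_apply, projDer_apply, val_fracSec]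
  exact locDer_prop (D.restrictScalars ℤ) (E.restrictScalars ℤ) _ x y _ h _

lemma projDer_fracSec (D : Derivation k A A) (hD : ∀ i, ∀ a ∈ 𝒜 i, D a ∈ 𝒜 i) {d : ℕ} (a b : A)
    (ha : a ∈ 𝒜 d) (hb : b ∈ 𝒜 d) {V : (Proj 𝒜).Opens} (hV : V ≤ Proj.basicOpen 𝒜 b) (x : V) :
    (((projDer 𝒜 D hD).D V le_top (rs hV (fracSec 𝒜 a b ha hb))).1 x).val =
      Localization.mk (b * D a - a * D b) ⟨b ^ 2, Submonoid.pow_mem _ (hV x.2) 2⟩ := by
  rw [projDer_apply, val_fracSec, locDer_mk]
  rfl

end General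

section Quad

variable (k : Type u) [Field k]

/-- The section `x_j / x_i` over `D₊(x_i)`. -/
def fr (i j : Fin 5) : Γ(Proj (quadGrading k), Proj.basicOpen (quadGrading k) (xq k i)) :=
  fracSec (quadGrading k) (xq k j) (xq k i) (xq_mem k j) (xq_mem k i)

lemma fr_mul (i j l : Fin 5) {V : (Proj (quadGrading k)).Opens}
    (hi : V ≤ Proj.basicOpen (quadGrading k) (xq k i))
    (hj : V ≤ Proj.basicOpen (quadGrading k) (xq k j)) :
    rs hi (fr k i j) * rs hj (fr k j l) = rs hi (fr k i l) := by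
  apply sec_ext
  intro x
  rw [val_mul', fr, fr, fr, val_fracSec, val_fracSec, val_fracSec, Localization.mk_mul,
    Localization.mk_eq_mk_iff, Localization.r_iff_exists]
  refine ⟨1, ?_⟩
  simp only [OneMemClass.coe_one, one_mul, Submonoid.coe_mul]
  ring

lemma fr_self (i : Fin 5) : fr k i i = 1 := by
  apply sec_ext
  intro x
  have h : ((fr k i i).1 x).val = Localization.mk (xq k i) ⟨xq k i, x.2⟩ := rfl
  rw [h, val_one']
  exact Localization.mk_self (⟨xq k i, x.2⟩ : x.1.asHomogeneousIdeal.toIdeal.primeCompl)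

lemma fr_unit (i j : Fin 5) {V : (Proj (quadGrading k)).Opens}
    (hi : V ≤ Proj.basicOpen (quadGrading k) (xq k i))
    (hj : V ≤ Proj.basicOpen (quadGrading k) (xq k j)) :
    rs hi (fr k i j) * rs hj (fr k j i) = 1 := by
  rw [fr_mul, fr_self]
  simp [rs]

/-- Elements of the degree zero localization as sections. -/
abbrev toSec (i : Fin 5) :
    Away (quadGrading k) (xq k i) →+* Γ(Proj (quadGrading k), Proj.basicOpen (quadGrading k) (xq k i)) :=
  (Proj.awayToSection (quadGrading k) (xq k i)).hom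

lemma toSec_fracq (i j : Fin 5) : toSec k i (fracq k i j) = fr k i j := by
  apply sec_ext
  intro x
  rw [toSec]
  erw [ProjectiveSpectrum.Proj.awayToSection_apply]
  rw [fracq, Away.val_mk, Localization.mk_eq_mk', IsLocalization.map_mk']
  have h : ((fr k i j).1 x).val = Localization.mk (xq k j) ⟨xq k i, x.2⟩ := rfl
  rw [h, Localization.mk_eq_mk']
  congr 1
  apply Subtype.ext
  exact pow_one _

lemma toSec_bijective (i : Fin 5) : Function.Bijective (toSec k i) := by
  have h := Proj.basicOpenIsoAway_hom (quadGrading k) (xq k i) (xq_mem k i) one_pos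
  have h2 : IsIso (Proj.awayToSection (quadGrading k) (xq k i)) := by
    rw [← h]
    infer_instance
  exact (ConcreteCategory.isIso_iff_bijective _).mp h2

lemma toSec_const (i : Fin 5) (c : k) :
    toSec k i (constAway k (xq k i) c) = kConst (projStr (quadGrading k)) _ c := by
  apply sec_ext
  intro x
  rw [kConst_apply, toSec]
  erw [ProjectiveSpectrum.Proj.awayToSection_apply]
  rw [val_constAway, IsLocalization.map_eq]
  rfl

/-- The evaluation of polynomials at the fractions `x_j / x_i`. -/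
def evalFr (i : Fin 5) : MvPolynomial (Fin 5) k →+*
    Γ(Proj (quadGrading k), Proj.basicOpen (quadGrading k) (xq k i)) :=
  eval₂Hom (kConst (projStr (quadGrading k)) _) (fr k i)

lemma evalFr_surjective (i : Fin 5) : Function.Surjective (evalFr k i) := by
  intro g
  obtain ⟨z, rfl⟩ := (toSec_bijective k i).2 g
  obtain ⟨n, a, ha, rfl⟩ := Away.mk_surjective (quadGrading k) (xq_mem k i) z
  have ha' : a ∈ quadGrading k n := by simpa using ha
  obtain ⟨p, hp, rfl⟩ := ha'
  have h0 : evalFr k i = (toSec k i).comp (eval₂Hom (constAway k (xq k i)) (fracq k i)) := by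
    apply MvPolynomial.ringHom_ext
    · intro c
      simp only [evalFr, eval₂Hom_C, RingHom.comp_apply]
      exact (toSec_const k i c).symm
    · intro j
      simp only [evalFr, eval₂Hom_X', RingHom.comp_apply]
      exact (toSec_fracq k i j).symm
  refine ⟨p, ?_⟩
  rw [h0, RingHom.comp_apply]
  congr 1
  have h1 := hom_scale (L := Localization.Away (xq k i))
    ((algebraMap _ (Localization.Away (xq k i))).comp (Ideal.Quotient.mk _))
    ((algebraMap (Away (quadGrading k) (xq k i)) _).comp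
      (eval₂Hom (constAway k (xq k i)) (fracq k i))) (fun c => by
        simp only [RingHom.comp_apply, eval₂Hom_C]
        exact (val_constAway k (xq k i) c).symm) (algebraMap _ _ (xq k i)) (fun j => by
        simp only [RingHom.comp_apply, eval₂Hom_X']
        exact (algebraMap_mul_val_fracq k i j).symm) hp
  simp only [RingHom.comp_apply] at h1
  apply val_injective
  apply ((isUnit_algebraMap_xq k i).pow n).mul_left_cancel
  refine h1.symm.trans ?_
  rw [Away.val_mk, Localization.mk_eq_mk', mul_comm, ← map_pow]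
  exact (IsLocalization.mk'_spec (Localization.Away (xq k i)) _
    (⟨xq k i ^ n, ⟨n, rfl⟩⟩ : Submonoid.powers (xq k i))).symm

variable [CharP k 2]

/-- The global derivation `x_i ∂/∂x_4` of the quadric threefold. -/
def vf (i : Fin 5) : SheafDer (Proj (quadGrading k)) (baseSections (projStr (quadGrading k))) ⊤ :=
  projDer (quadGrading k) (quadDer k i) (quadDer_mem k i)

lemma quadDer_xq (i j : Fin 5) : quadDer k i (xq k j) = if j = 4 then xq k i else 0 := by
  rw [xq, quadDer_mk, pderiv_X]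
  split_ifs with h
  · subst h
    simp [xq]
  · rw [Pi.single_eq_of_ne h]
    simp

lemma quadDer_prop (i j : Fin 5) (a : QuadRing k) :
    xq k i * quadDer k j a = xq k j * quadDer k i a := by
  obtain ⟨p, rfl⟩ := Ideal.Quotient.mk_surjective a
  rw [quadDer_mk, quadDer_mk, xq, xq, ← map_mul, ← map_mul]
  congr 1
  ring

lemma vf_prop (i j : Fin 5) {V : (Proj (quadGrading k)).Opens}
    (hV : V ≤ Proj.basicOpen (quadGrading k) (xq k i)) (f : Γ(Proj (quadGrading k), V)) :
    (vf k j).D V le_top f = rs hV (fr k i j) * (vf k i).D V le_top f :=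
  projDer_prop (quadGrading k) (quadDer k j) (quadDer k i) (quadDer_mem k j) (quadDer_mem k i)
    (xq k i) (xq k j) (xq_mem k i) (xq_mem k j) (quadDer_prop k i j) hV f

lemma vf_fr (i j l : Fin 5) (hj : j ≠ 4) {V : (Proj (quadGrading k)).Opens}
    (hV : V ≤ Proj.basicOpen (quadGrading k) (xq k j)) :
    (vf k i).D V le_top (rs hV (fr k j l)) = if l = 4 then rs hV (fr k j i) else 0 := by
  apply sec_ext
  intro x
  rw [vf, fr, projDer_fracSec, quadDer_xq, quadDer_xq, if_neg hj, mul_zero, sub_zero]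
  split_ifs with h
  · rw [fr, val_fracSec, Localization.mk_eq_mk_iff, Localization.r_iff_exists]
    refine ⟨1, ?_⟩
    simp only [OneMemClass.coe_one, one_mul]
    ring
  · rw [mul_zero, Localization.mk_zero, val_zero']

end Quad

end Pool.Agent.Helper44
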