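import Pool.Agent.Helper44.ProjDer
import Pool.Agent.Helper44.DerUnique

open AlgebraicGeometry CategoryTheory TopologicalSpace Opposite

universe u
noncomputable section

namespace Pool.Agent.Helper44

section Transport

variable {X Y S : Scheme.{u}}

/-- The ring isomorphism on sections defined by an isomorphism of schemes. -/
def isoRing (e : X ≅ Y) (V : X.Opens) : Γ(X, V) ≃+* Γ(Y, e.inv ⁻¹ᵁ V) :=
  (asIso (e.inv.app V)).commRingCatIsoToRingEquiv

lemma isoRing_apply (e : X ≅ Y) (V : X.Opens) (f : Γ(X, V)) :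
    isoRing e V f = (e.inv.app V).hom f := rfl

lemma preimage_mono' (g : Y ⟶ X) {V W : X.Opens} (h : W ≤ V) : g ⁻¹ᵁ W ≤ g ⁻¹ᵁ V := fun _ hx => h hx

lemma isoRing_rs (e : X ≅ Y) {V W : X.Opens} (h : W ≤ V) (f : Γ(X, V)) :
    rs (preimage_mono' e.inv h) (isoRing e V f) = isoRing e W (rs h f) := by
  have := e.inv.naturality (homOfLE h).op
  exact (congrArg (fun g => g.hom f) this).symm

lemma isoRing_symm_rs (e : X ≅ Y) {V W : X.Opens} (h : W ≤ V) (g : Γ(Y, e.inv ⁻¹ᵁ V)) :
    rs h ((isoRing e V).symm g) = (isoRing e W).symm (rs (preimage_mono' e.inv h) g) := by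
  rw [RingEquiv.eq_symm_apply, ← isoRing_rs, RingEquiv.apply_symm_apply]

lemma isoRing_base (s : X ⟶ S) (s' : Y ⟶ S) (e : X ≅ Y) (he : e.inv ≫ s = s') (V : X.Opens)
    (f : Γ(X, V)) (hf : f ∈ baseSections s V) :
    isoRing e V f ∈ baseSections s' (e.inv ⁻¹ᵁ V) := by
  subst he
  obtain ⟨W, h, c, rfl⟩ := hf
  refine ⟨W, preimage_mono' e.inv h, c, ?_⟩
  rw [isoRing_apply, Scheme.Hom.app_eq_appLE]
  exact (congrArg (fun g => g.hom c)
    (Scheme.Hom.appLE_comp_appLE e.inv s W V (e.inv ⁻¹ᵁ V) h le_rfl)).symm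

/-- Transport of a global derivation along an isomorphism. -/
def SheafDer.transport (s : X ⟶ S) (s' : Y ⟶ S) (e : X ≅ Y) (he : e.inv ≫ s = s')
    (D : SheafDer Y (baseSections s') ⊤) : SheafDer X (baseSections s) ⊤ where
  D V _ :=
    { toFun := fun f => (isoRing e V).symm (D.D (e.inv ⁻¹ᵁ V) le_top (isoRing e V f))
      map_zero' := by simp
      map_add' := fun f g => by simp }
  leibniz V _ f g := by
    simp only [AddMonoidHom.coe_mk, ZeroHom.coe_mk, map_mul, D.leibniz, map_add,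
      RingEquiv.symm_apply_apply]
  res V W _ h f := by
    simp only [AddMonoidHom.coe_mk, ZeroHom.coe_mk]
    rw [isoRing_symm_rs, D.res _ _ _ (preimage_mono' e.inv h), isoRing_rs]
  kills V _ f hf := by
    simp only [AddMonoidHom.coe_mk, ZeroHom.coe_mk]
    rw [D.kills _ _ _ (isoRing_base s s' e he V f hf), map_zero]

end Transport

end Pool.Agent.Helper44
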